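import Mathlib
import Pool.Agent.Furedi.Comb

set_option autoImplicit false

namespace Pool.Agent.Furedi2

open Finset
open Pool.Agent.Furedi (IsMatching)

variable {V : Type*} [DecidableEq V]

/-- `S` is a union of components for `M` -/
def Cl (M : Finset (Finset V)) (S : Finset V) : Prop := ∀ e ∈ M, e ⊆ S ∨ Disjoint e S

/-- the members of `M` inside `S` -/
def ins (M : Finset (Finset V)) (S : Finset V) : Finset (Finset V) := M.filter fun e => e ⊆ S

/-- the members of `M` not inside `S` -/
def out (M : Finset (Finset V)) (S : Finset V) : Finset (Finset V) := M.filter fun e => ¬ e ⊆ S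

/-- switching -/
def sw (M N : Finset (Finset V)) (S : Finset V) : Finset (Finset V) := out M S ∪ ins N S

/-- the vertices of `S` missed by `M` -/
def miss (M : Finset (Finset V)) (S : Finset V) : Finset V := S.filter fun x => ∀ e ∈ M, x ∉ e

lemma mem_ins {M : Finset (Finset V)} {S e : Finset V} : e ∈ ins M S ↔ e ∈ M ∧ e ⊆ S := by
  simp [ins]

lemma mem_out {M : Finset (Finset V)} {S e : Finset V} : e ∈ out M S ↔ e ∈ M ∧ ¬ e ⊆ S := by
  simp [out]

lemma mem_sw {M N : Finset (Finset V)} {S e : Finset V} :
    e ∈ sw M N S ↔ (e ∈ M ∧ ¬ e ⊆ S) ∨ (e ∈ N ∧ e ⊆ S) := by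
  simp [sw, mem_ins, mem_out]

lemma mem_miss {M : Finset (Finset V)} {S : Finset V} {x : V} :
    x ∈ miss M S ↔ x ∈ S ∧ ∀ e ∈ M, x ∉ e := by simp [miss]

lemma sw_matching {M N : Finset (Finset V)} {S : Finset V} (hM : IsMatching M)
    (hN : IsMatching N) (hMS : Cl M S) : IsMatching (sw M N S) := by
  intro E hE F hF hEF
  rw [mem_sw] at hE hF
  rcases hE with hE | hE <;> rcases hF with hF | hF
  · exact hM E hE.1 F hF.1 hEF
  · have := (hMS E hE.1).resolve_left hE.2
    exact this.mono_right hF.2
  · have := (hMS F hF.1).resolve_left hF.2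
    exact (this.mono_right hE.2).symm
  · exact hN E hE.1 F hF.1 hEF

lemma sw_subset {M N G : Finset (Finset V)} {S : Finset V} (hM : M ⊆ G) (hN : N ⊆ G) :
    sw M N S ⊆ G := by
  intro e he
  rw [mem_sw] at he
  rcases he with he | he
  · exact hM he.1
  · exact hN he.1

lemma sum_sw (M N : Finset (Finset V)) (S : Finset V) (c : Finset V → ℕ) :
    ∑ e ∈ sw M N S, c e = ∑ e ∈ out M S, c e + ∑ e ∈ ins N S, c e := by
  unfold sw
  rw [sum_union]
  rw [disjoint_left]
  intro e he he'
  exact (mem_out.1 he).2 (mem_ins.1 he').2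

lemma sum_out_ins (M : Finset (Finset V)) (S : Finset V) (c : Finset V → ℕ) :
    ∑ e ∈ out M S, c e + ∑ e ∈ ins M S, c e = ∑ e ∈ M, c e := by
  unfold out ins
  rw [add_comm]
  exact sum_filter_add_sum_filter_not M (fun e => e ⊆ S) c

lemma sum_sw_add (M N : Finset (Finset V)) (S : Finset V) (c : Finset V → ℕ) :
    ∑ e ∈ sw M N S, c e + ∑ e ∈ sw N M S, c e = ∑ e ∈ M, c e + ∑ e ∈ N, c e := by
  rw [sum_sw, sum_sw, ← sum_out_ins M S c, ← sum_out_ins N S c]
  ring

lemma card_ins {M : Finset (Finset V)} {S : Finset V} (hM : IsMatching M)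
    (h2 : ∀ e ∈ M, e.card = 2) (hS : Cl M S) : 2 * (ins M S).card + (miss M S).card = S.card := by
  classical
  have h1 : ((ins M S : Finset (Finset V)) : Set (Finset V)).PairwiseDisjoint (fun e => e) := by
    intro e he f hf hef
    exact hM e (mem_ins.1 (mem_coe.1 he)).1 f (mem_ins.1 (mem_coe.1 hf)).1 hef
  have h3 : ((ins M S).biUnion fun e => e).card = 2 * (ins M S).card := by
    rw [card_biUnion h1, sum_const_nat (m := 2)]
    · ring
    · intro e he; exact h2 e (mem_ins.1 he).1
  have h4 : S = ((ins M S).biUnion fun e => e) ∪ miss M S := by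
    ext x
    simp only [mem_union, mem_biUnion, mem_miss, mem_ins]
    constructor
    · intro hx
      by_cases h : ∃ e ∈ M, x ∈ e
      · obtain ⟨e, he, hxe⟩ := h
        left
        rcases hS e he with h5 | h5
        · exact ⟨e, ⟨he, h5⟩, hxe⟩
        · exact absurd hx (disjoint_left.1 h5 hxe)
      · push Not at h
        exact Or.inr ⟨hx, h⟩
    · rintro (⟨e, ⟨_, he⟩, hx⟩ | h)
      · exact he hx
      · exact h.1
  have h5 : Disjoint ((ins M S).biUnion fun e => e) (miss M S) := by
    rw [disjoint_left]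
    intro x hx hx'
    obtain ⟨e, he, hxe⟩ := mem_biUnion.1 hx
    exact (mem_miss.1 hx').2 e (mem_ins.1 he).1 hxe
  have h6 := card_union_of_disjoint h5
  rw [← h4, h3] at h6
  omega

lemma exists_comp [Fintype V] {M N : Finset (Finset V)} (hM : IsMatching M) (hN : IsMatching N)
    (hM2 : ∀ e ∈ M, e.card = 2) (hN2 : ∀ e ∈ N, e.card = 2) (t : V) :
    ∃ S : Finset V, t ∈ S ∧ Cl M S ∧ Cl N S ∧ (miss M S).card + (miss N S).card ≤ 2 := by
  classical
  let P : Finset (Finset V) := (univ : Finset (Finset V)).filter fun T =>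
    t ∈ T ∧ T.card ≤ (ins (M ∪ N) T).card + 1
  have hne : P.Nonempty := ⟨{t}, by simp [P]⟩
  obtain ⟨S, hSP, hmax⟩ := exists_max_image P card hne
  obtain ⟨-, htS, hc⟩ := mem_filter.1 hSP
  have hcl : Cl (M ∪ N) S := by
    intro e he
    by_contra hcon
    push Not at hcon
    obtain ⟨h1, h2⟩ := hcon
    rw [not_disjoint_iff] at h2
    obtain ⟨x, hxe, hxS⟩ := h2
    rw [not_subset] at h1
    obtain ⟨y, hye, hyS⟩ := h1
    have hec : e.card = 2 := by
      rcases mem_union.1 he with h | h
      · exact hM2 e h
      · exact hN2 e h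
    have hxy : x ≠ y := by rintro rfl; exact hyS hxS
    have hexy : e = {x, y} := by
      symm
      apply eq_of_subset_of_card_le
      · intro z hz
        simp only [mem_insert, mem_singleton] at hz
        rcases hz with rfl | rfl
        · exact hxe
        · exact hye
      · rw [hec, card_pair hxy]
    have hbig : insert y S ∈ P := by
      simp only [P, mem_filter, mem_univ, true_and]
      refine ⟨mem_insert_of_mem htS, ?_⟩
      have h3 : insert e (ins (M ∪ N) S) ⊆ ins (M ∪ N) (insert y S) := by
        intro f hf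
        rcases mem_insert.1 hf with rfl | hf
        · rw [mem_ins]
          refine ⟨he, ?_⟩
          rw [hexy]
          intro z hz
          simp only [mem_insert, mem_singleton] at hz
          rcases hz with rfl | rfl
          · exact mem_insert_of_mem hxS
          · exact mem_insert_self _ _
        · rw [mem_ins] at hf ⊢
          exact ⟨hf.1, hf.2.trans (subset_insert _ _)⟩
      have h4 : e ∉ ins (M ∪ N) S := fun h => hyS ((mem_ins.1 h).2 hye)
      have h5 := card_le_card h3
      rw [card_insert_of_notMem h4] at h5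
      rw [card_insert_of_notMem hyS]
      omega
    have := hmax _ hbig
    rw [card_insert_of_notMem hyS] at this
    omega
  have hclM : Cl M S := fun e he => hcl e (mem_union_left _ he)
  have hclN : Cl N S := fun e he => hcl e (mem_union_right _ he)
  refine ⟨S, htS, hclM, hclN, ?_⟩
  have h1 := card_ins hM hM2 hclM
  have h2 := card_ins hN hN2 hclN
  have h3 : (ins (M ∪ N) S).card ≤ (ins M S).card + (ins N S).card := by
    have : ins (M ∪ N) S = ins M S ∪ ins N S := by
      ext e; simp only [mem_ins, mem_union]; tauto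
    rw [this]
    exact card_union_le _ _
  omega

end Pool.Agent.Furedi2
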