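import Mathlib
import Pool.Agent.Furedi2.Graph

set_option autoImplicit false

namespace Pool.Agent.Furedi2

open Finset
open Pool.Agent.Furedi (IsMatching)

variable {V : Type*} [Fintype V] [DecidableEq V]

/-- total weight -/
def tw (c : Finset V → ℕ) (M : Finset (Finset V)) : ℕ := ∑ e ∈ M, c e

/-- optimal for `c` among the matchings inside `G` -/
def Opt (G : Finset (Finset V)) (c : Finset V → ℕ) (M : Finset (Finset V)) : Prop :=
  M ⊆ G ∧ IsMatching M ∧ ∀ M2 ⊆ G, IsMatching M2 → tw c M2 ≤ tw c M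

/-- optimal for `c`, then with the most edges inside `K` -/
def Lex (G : Finset (Finset V)) (K : Finset V) (c : Finset V → ℕ) (M : Finset (Finset V)) : Prop :=
  Opt G c M ∧ ∀ M2, Opt G c M2 → (ins M2 K).card ≤ (ins M K).card

omit [Fintype V] in
lemma isMatching_empty : IsMatching (∅ : Finset (Finset V)) := by
  intro E hE; simp at hE

omit [Fintype V] in
lemma exists_opt (G : Finset (Finset V)) (c : Finset V → ℕ) : ∃ M, Opt G c M := by
  classical
  let P := G.powerset.filter fun M => IsMatching M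
  have hne : P.Nonempty := ⟨∅, by simp [P, isMatching_empty]⟩
  obtain ⟨M, hM, hmax⟩ := exists_max_image P (tw c) hne
  simp only [P, mem_filter, mem_powerset] at hM hmax
  exact ⟨M, hM.1, hM.2, fun M2 h1 h2 => hmax M2 ⟨h1, h2⟩⟩

omit [Fintype V] in
lemma exists_lex (G : Finset (Finset V)) (K : Finset V) (c : Finset V → ℕ) : ∃ M, Lex G K c M := by
  classical
  let P := G.powerset.filter fun M => Opt G c M
  have hne : P.Nonempty := by
    obtain ⟨M, hM⟩ := exists_opt G c
    exact ⟨M, by simp only [P, mem_filter, mem_powerset]; exact ⟨hM.1, hM⟩⟩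
  obtain ⟨M, hM, hmax⟩ := exists_max_image P (fun M => (ins M K).card) hne
  simp only [P, mem_filter, mem_powerset] at hM hmax
  exact ⟨M, hM.2, fun M2 h2 => hmax M2 ⟨h2.1, h2⟩⟩

omit [Fintype V] in
lemma tw_split {G M : Finset (Finset V)} {K : Finset V} {w c : Finset V → ℕ}
    (hwc : ∀ e ∈ G, w e = c e + if e ⊆ K then 1 else 0) (hM : M ⊆ G) :
    tw w M = tw c M + (ins M K).card := by
  unfold tw ins
  rw [card_filter, ← sum_add_distrib]
  exact sum_congr rfl fun e he => hwc e (hM he)

/-- the transitivity step -/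
lemma trans_step {G M : Finset (Finset V)} {K : Finset V} {w c : Finset V → ℕ}
    (hG2 : ∀ e ∈ G, e.card = 2) (hK : Cl G K)
    (hwc : ∀ e ∈ G, w e = c e + if e ⊆ K then 1 else 0)
    {u t v : V} (hu : u ∈ K) (ht : t ∈ K) (hv : v ∈ K)
    (htm : ∃ N, Opt G w N ∧ ∀ e ∈ N, t ∉ e)
    (hut : ∀ M, Lex G K c M → (∀ e ∈ M, u ∉ e) → (∀ e ∈ M, t ∉ e) → u = t)
    (htv : ∀ M, Lex G K c M → (∀ e ∈ M, t ∉ e) → (∀ e ∈ M, v ∉ e) → t = v)
    (hM : Lex G K c M) (huM : ∀ e ∈ M, u ∉ e) (hvM : ∀ e ∈ M, v ∉ e) : u = v := by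
  classical
  by_contra huv
  by_cases htM : ∀ e ∈ M, t ∉ e
  · exact huv ((hut M hM huM htM).trans (htv M hM htM hvM))
  obtain ⟨N, hN, htN⟩ := htm
  obtain ⟨⟨hMG, hMm, hMo⟩, hMl⟩ := hM
  obtain ⟨hNG, hNm, hNo⟩ := hN
  obtain ⟨T0, htT0, hT0M, hT0N, hcnt⟩ := exists_comp hMm hNm (fun e he => hG2 e (hMG he))
    (fun e he => hG2 e (hNG he)) t
  -- intersect with K
  set T := T0 ∩ K with hT
  have hclM : Cl M T := by
    intro e he
    rcases hT0M e he with h1 | h1
    · rcases hK e (hMG he) with h2 | h2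
      · exact Or.inl (subset_inter h1 h2)
      · exact Or.inr (h2.mono_right inter_subset_right)
    · exact Or.inr (h1.mono_right inter_subset_left)
  have hclN : Cl N T := by
    intro e he
    rcases hT0N e he with h1 | h1
    · rcases hK e (hNG he) with h2 | h2
      · exact Or.inl (subset_inter h1 h2)
      · exact Or.inr (h2.mono_right inter_subset_right)
    · exact Or.inr (h1.mono_right inter_subset_left)
  have htT : t ∈ T := mem_inter.2 ⟨htT0, ht⟩
  have hmM : (miss M T).card ≤ (miss M T0).card := by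
    apply card_le_card
    intro x hx
    rw [mem_miss] at hx ⊢
    exact ⟨(mem_inter.1 hx.1).1, hx.2⟩
  have hmN : (miss N T).card ≤ (miss N T0).card := by
    apply card_le_card
    intro x hx
    rw [mem_miss] at hx ⊢
    exact ⟨(mem_inter.1 hx.1).1, hx.2⟩
  have hN1 : 1 ≤ (miss N T).card := card_pos.2 ⟨t, mem_miss.2 ⟨htT, htN⟩⟩
  have hM1 : (miss M T).card ≤ 1 := by omega
  -- the switched matching
  set M1 := sw M N T with hM1def
  have hM1G : M1 ⊆ G := sw_subset hMG hNG
  have hM1m : IsMatching M1 := sw_matching hMm hNm hclM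
  have hN1G : sw N M T ⊆ G := sw_subset hNG hMG
  have hN1m : IsMatching (sw N M T) := sw_matching hNm hMm hclN
  have hsum := sum_sw_add M N T w
  have hNw := hNo _ hN1G hN1m
  have hw1 : tw w M ≤ tw w M1 := by
    unfold tw at hNw ⊢
    rw [← hM1def] at hsum
    omega
  have hcM := card_ins hMm (fun e he => hG2 e (hMG he)) hclM
  have hcN := card_ins hNm (fun e he => hG2 e (hNG he)) hclN
  have hTK : T ⊆ K := inter_subset_right
  have hk1 : (ins M1 K).card + (ins M T).card = (ins M K).card + (ins N T).card := by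
    have e1 : ins M1 K = (ins M K \ ins M T) ∪ ins N T := by
      ext e
      simp only [mem_ins, hM1def, mem_sw, mem_union, mem_sdiff]
      constructor
      · rintro ⟨h1 | h1, h2⟩
        · exact Or.inl ⟨⟨h1.1, h2⟩, fun h => h1.2 h.2⟩
        · exact Or.inr h1
      · rintro (h | h)
        · exact ⟨Or.inl ⟨h.1.1, fun h3 => h.2 ⟨h.1.1, h3⟩⟩, h.1.2⟩
        · exact ⟨Or.inr h, h.2.trans hTK⟩
    have e2 : Disjoint (ins M K \ ins M T) (ins N T) := by
      rw [disjoint_left]
      intro e he he'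
      rw [mem_sdiff, mem_ins, mem_ins] at he
      exact he.2 ⟨he.1.1, (mem_ins.1 he').2⟩
    have e3 : ins M T ⊆ ins M K := by
      intro e he
      rw [mem_ins] at he ⊢
      exact ⟨he.1, he.2.trans hTK⟩
    have e4 := card_le_card e3
    rw [e1, card_union_of_disjoint e2, card_sdiff_of_subset e3]
    omega
  have hs1 := tw_split hwc hMG
  have hs2 := tw_split hwc hM1G
  have ho := hMo M1 hM1G hM1m
  have hcM1 : tw c M1 = tw c M := by omega
  have hM1opt : Opt G c M1 := ⟨hM1G, hM1m, fun M2 h1 h2 => by rw [hcM1]; exact hMo M2 h1 h2⟩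
  have hlex : Lex G K c M1 := by
    refine ⟨hM1opt, fun M2 h2 => ?_⟩
    have := hMl M2 h2
    have := hMl M1 hM1opt
    omega
  have htM1 : ∀ e ∈ M1, t ∉ e := by
    intro e he hte
    rcases mem_sw.1 he with h | h
    · rcases hclM e h.1 with h3 | h3
      · exact h.2 h3
      · exact disjoint_left.1 h3 hte htT
    · exact htN e h.1 hte
  have hout : ∀ x, x ∉ T → (∀ e ∈ M, x ∉ e) → ∀ e ∈ M1, x ∉ e := by
    intro x hx hxM e he hxe
    rcases mem_sw.1 he with h | h
    · exact hxM e h.1 hxe
    · exact hx (h.2 hxe)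
  by_cases huT : u ∈ T
  · have hvT : v ∉ T := by
      intro hvT
      have : ({u, v} : Finset V) ⊆ miss M T := by
        intro x hx
        simp only [mem_insert, mem_singleton] at hx
        rcases hx with rfl | rfl
        · exact mem_miss.2 ⟨huT, huM⟩
        · exact mem_miss.2 ⟨hvT, hvM⟩
      have := card_le_card this
      rw [card_pair huv] at this
      omega
    have := htv M1 hlex htM1 (hout v hvT hvM)
    exact hvT (this ▸ htT)
  · have := hut M1 hlex (hout u huT huM) htM1
    exact huT (this ▸ htT)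

/-- In a component all of whose vertices can be missed, a lexicographically optimal matching
misses at most one vertex. -/
lemma miss_le_one {G M : Finset (Finset V)} {x0 : V} {K : Finset V} {w c : Finset V → ℕ}
    (hG2 : ∀ e ∈ G, e.card = 2)
    (hKdef : ∀ y, y ∈ K ↔ Relation.ReflTransGen (fun a b => ∃ e ∈ G, a ∈ e ∧ b ∈ e) x0 y)
    (hwc : ∀ e ∈ G, w e = c e + if e ⊆ K then 1 else 0)
    (hmiss : ∀ t ∈ K, ∃ N, Opt G w N ∧ ∀ e ∈ N, t ∉ e)
    (hM : Lex G K c M) : (miss M K).card ≤ 1 := by
  classical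
  have hx0 : x0 ∈ K := (hKdef x0).2 Relation.ReflTransGen.refl
  have hstep : ∀ e ∈ G, ∀ y ∈ e, y ∈ K → e ⊆ K := by
    intro e he y hy hyK z hz
    rw [hKdef] at hyK ⊢
    exact hyK.tail ⟨e, he, hy, hz⟩
  have hK : Cl G K := by
    intro e he
    by_cases h : Disjoint e K
    · exact Or.inr h
    · rw [not_disjoint_iff] at h
      obtain ⟨y, hy, hyK⟩ := h
      exact Or.inl (hstep e he y hy hyK)
  -- adjacent vertices
  have hadj : ∀ u v, (∃ e ∈ G, u ∈ e ∧ v ∈ e) → u ∈ K → ∀ M, Lex G K c M → (∀ e ∈ M, u ∉ e) →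
      (∀ e ∈ M, v ∉ e) → u = v := by
    rintro u v ⟨e, heG, hue, hve⟩ huK M hM huM hvM
    by_contra huv
    obtain ⟨⟨hMG, hMm, hMo⟩, hMl⟩ := hM
    have hec := hG2 e heG
    have he : e = {u, v} := by
      symm
      apply eq_of_subset_of_card_le
      · intro z hz
        simp only [mem_insert, mem_singleton] at hz
        rcases hz with rfl | rfl
        · exact hue
        · exact hve
      · rw [hec, card_pair huv]
    have heM : e ∉ M := fun h => huM e h hue
    have hdis : ∀ f ∈ M, Disjoint e f := by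
      intro f hf
      rw [he, disjoint_left]
      intro z hz hzf
      simp only [mem_insert, mem_singleton] at hz
      rcases hz with rfl | rfl
      · exact huM f hf hzf
      · exact hvM f hf hzf
    have hm' : IsMatching (insert e M) := by
      intro E hE F hF hEF
      rcases mem_insert.1 hE with hE1 | hE1
      · rcases mem_insert.1 hF with hF1 | hF1
        · exact absurd (hE1.trans hF1.symm) hEF
        · rw [hE1]; exact hdis F hF1
      · rcases mem_insert.1 hF with hF1 | hF1
        · rw [hF1]; exact (hdis E hE1).symm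
        · exact hMm E hE1 F hF1 hEF
    have hG' : insert e M ⊆ G := insert_subset heG hMG
    have hle := hMo _ hG' hm'
    have heq : tw c (insert e M) = c e + tw c M := by
      unfold tw; rw [sum_insert heM]
    have hopt : Opt G c (insert e M) := by
      refine ⟨hG', hm', fun M2 h1 h2 => ?_⟩
      have := hMo M2 h1 h2
      omega
    have hcard := hMl _ hopt
    have heK : e ⊆ K := hstep e heG u hue huK
    have : ins (insert e M) K = insert e (ins M K) := by
      ext f
      simp only [mem_ins, mem_insert]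
      constructor
      · rintro ⟨rfl | h, h2⟩
        · exact Or.inl rfl
        · exact Or.inr ⟨h, h2⟩
      · rintro (rfl | h)
        · exact ⟨Or.inl rfl, heK⟩
        · exact ⟨Or.inr h.1, h.2⟩
    rw [this, card_insert_of_notMem (fun h => heM (mem_ins.1 h).1)] at hcard
    omega
  -- all vertices from x0
  have hfrom : ∀ y, y ∈ K → ∀ M, Lex G K c M → (∀ e ∈ M, x0 ∉ e) → (∀ e ∈ M, y ∉ e) →
      x0 = y := by
    intro y hy
    rw [hKdef] at hy
    induction hy with
    | refl => intro M _ _ _; rfl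
    | @tail b d hab hbd ih =>
      intro M hM h1 h2
      have hbK : b ∈ K := (hKdef b).2 hab
      have hdK : d ∈ K := (hKdef d).2 (hab.tail hbd)
      exact trans_step hG2 hK hwc hx0 hbK hdK (hmiss b hbK) (fun M hM h3 h4 => ih M hM h3 h4)
        (fun M hM h3 h4 => hadj b d hbd hbK M hM h3 h4) hM h1 h2
  rw [card_le_one]
  intro u hu v hv
  rw [mem_miss] at hu hv
  exact trans_step hG2 hK hwc hu.1 hx0 hv.1 (hmiss x0 hx0)
    (fun M hM h3 h4 => (hfrom u hu.1 M hM h4 h3).symm)
    (fun M hM h3 h4 => hfrom v hv.1 M hM h3 h4) hM hu.2 hv.2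

end Pool.Agent.Furedi2
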