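import Mathlib
import Pool.Agent.Furedi2.Edm

set_option autoImplicit false

namespace Pool.Agent.Furedi2

open Finset
open Pool.Agent.Furedi (IsMatching)

variable {V : Type*} [Fintype V] [DecidableEq V]

/-- Packing lemma for natural weights. -/
theorem int_pack {G : Finset (Finset V)} (hG2 : ∀ e ∈ G, e.card = 2) (f : Finset V → ℝ)
    (hf0 : ∀ e, 0 ≤ f e) (hdeg : ∀ x, ∑ e ∈ G.filter (fun e => x ∈ e), f e ≤ 1)
    (hodd : ∀ K : Finset V, K.Nonempty →
      ∑ e ∈ G.filter (fun e => e ⊆ K), f e ≤ ((K.card : ℝ) - 1) / 2) :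
    ∀ (n : ℕ) (w : Finset V → ℕ), tw w G = n →
      ∃ M ⊆ G, IsMatching M ∧ ∑ e ∈ G, f e * (w e : ℝ) ≤ (tw w M : ℝ) := by
  classical
  intro n
  induction n using Nat.strong_induction_on with
  | _ n ih =>
  intro w hwn
  by_cases h0 : ∀ e ∈ G, w e = 0
  · refine ⟨∅, empty_subset _, isMatching_empty, ?_⟩
    have : ∑ e ∈ G, f e * (w e : ℝ) = 0 := sum_eq_zero fun e he => by rw [h0 e he]; simp
    rw [this]
    simp [tw]
  push Not at h0
  obtain ⟨e0, he0, hwe0⟩ := h0
  set G1 := G.filter fun e => 1 ≤ w e with hG1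
  have he01 : e0 ∈ G1 := mem_filter.2 ⟨he0, by omega⟩
  have hG1G : G1 ⊆ G := filter_subset _ _
  have hG12 : ∀ e ∈ G1, e.card = 2 := fun e he => hG2 e (hG1G he)
  by_cases hcase : ∃ u, ∀ N, Opt G1 w N → ∃ e ∈ N, u ∈ e
  · obtain ⟨u, hu⟩ := hcase
    obtain ⟨N, hN⟩ := exists_opt G1 w
    obtain ⟨e1, he1N, hue1⟩ := hu N hN
    have he1 := mem_filter.1 (hN.1 he1N)
    let w' : Finset V → ℕ := fun e => if u ∈ e then w e - 1 else w e
    have hww' : ∀ e, w e ≤ w' e + if u ∈ e then 1 else 0 := by
      intro e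
      simp only [w']
      split_ifs <;> omega
    have hw'le : ∀ e, w' e ≤ w e := by
      intro e
      simp only [w']
      split_ifs <;> omega
    have hlt : tw w' G < n := by
      rw [← hwn]
      unfold tw
      apply sum_lt_sum
      · intro e _; exact hw'le e
      · refine ⟨e1, he1.1, ?_⟩
        simp only [w', hue1, if_true]
        have := he1.2
        omega
    obtain ⟨M', hM'G, hM'm, hM'⟩ := ih _ hlt w' rfl
    set M2 := M'.filter fun e => 1 ≤ w e with hM2
    have hM2G : M2 ⊆ G1 := by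
      intro e he
      rw [hM2, mem_filter] at he
      exact mem_filter.2 ⟨hM'G he.1, he.2⟩
    have hM2m : IsMatching M2 := hM'm.mono (filter_subset _ _)
    have htw : tw w' M' = tw w' M2 := by
      unfold tw
      rw [hM2]
      symm
      apply sum_filter_of_ne
      intro e _ hne
      have := hw'le e
      omega
    have hkey : tw w' M2 + 1 ≤ tw w N := by
      by_cases hc : ∃ e ∈ M2, u ∈ e
      · obtain ⟨e2, he2, hue2⟩ := hc
        have h1 : tw w M2 = tw w' M2 + 1 := by
          unfold tw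
          rw [← add_sum_erase M2 w he2, ← add_sum_erase M2 w' he2]
          have h2 : ∑ e ∈ M2.erase e2, w e = ∑ e ∈ M2.erase e2, w' e := by
            refine sum_congr rfl fun e he => ?_
            rw [mem_erase] at he
            have : u ∉ e := fun hue => disjoint_left.1 (hM2m e he.2 e2 he2 he.1) hue hue2
            simp [w', this]
          have h3 : w e2 = w' e2 + 1 := by
            have := (mem_filter.1 he2).2
            simp only [w', hue2, if_true]
            omega
          rw [h2, h3]; ring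
        have h4 := hN.2.2 M2 hM2G hM2m
        omega
      · push Not at hc
        have h1 : tw w M2 = tw w' M2 := by
          unfold tw
          refine sum_congr rfl fun e he => ?_
          simp [w', hc e he]
        have h4 := hN.2.2 M2 hM2G hM2m
        by_contra hcon
        have hopt : Opt G1 w M2 := by
          refine ⟨hM2G, hM2m, fun M3 h5 h6 => ?_⟩
          have := hN.2.2 M3 h5 h6
          omega
        obtain ⟨e, he, hue⟩ := hu M2 hopt
        exact hc e he hue
    refine ⟨N, hN.1.trans hG1G, hN.2.1, ?_⟩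
    have h1 : ∑ e ∈ G, f e * (w e : ℝ) ≤ ∑ e ∈ G, f e * (w' e : ℝ) +
        ∑ e ∈ G.filter (fun e => u ∈ e), f e := by
      rw [sum_filter, ← sum_add_distrib]
      refine sum_le_sum fun e _ => ?_
      have := hww' e
      have h2 : (w e : ℝ) ≤ (w' e : ℝ) + if u ∈ e then 1 else 0 := by exact_mod_cast this
      have h3 := hf0 e
      split_ifs at h2 ⊢ with h4
      · nlinarith
      · nlinarith
    have h2 := hdeg u
    have h3 : ((tw w' M2 : ℕ) : ℝ) + 1 ≤ (tw w N : ℝ) := by exact_mod_cast hkey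
    rw [htw] at hM'
    linarith
  · push Not at hcase
    have hx : e0.Nonempty := by
      rw [← card_pos, hG2 e0 he0]; norm_num
    obtain ⟨x0, hx0⟩ := hx
    let K : Finset V := univ.filter fun y =>
      Relation.ReflTransGen (fun a b => ∃ e ∈ G1, a ∈ e ∧ b ∈ e) x0 y
    have hKdef : ∀ y, y ∈ K ↔
        Relation.ReflTransGen (fun a b => ∃ e ∈ G1, a ∈ e ∧ b ∈ e) x0 y := by
      intro y; simp [K]
    have he0K : e0 ⊆ K := by
      intro z hz
      rw [hKdef]
      exact Relation.ReflTransGen.single ⟨e0, he01, hx0, hz⟩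
    let c : Finset V → ℕ := fun e => if e ∈ G1 ∧ e ⊆ K then w e - 1 else w e
    have hwc : ∀ e ∈ G1, w e = c e + if e ⊆ K then 1 else 0 := by
      intro e he
      have := (mem_filter.1 he).2
      simp only [c, he, true_and]
      split_ifs <;> omega
    have hcle : ∀ e, c e ≤ w e := by
      intro e
      simp only [c]
      split_ifs <;> omega
    have hlt : tw c G < n := by
      rw [← hwn]
      unfold tw
      apply sum_lt_sum
      · intro e _; exact hcle e
      · refine ⟨e0, he0, ?_⟩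
        simp only [c, he01, he0K, and_self, if_true]
        omega
    obtain ⟨M', hM'G, hM'm, hM'⟩ := ih _ hlt c rfl
    set M2 := M'.filter fun e => 1 ≤ w e with hM2
    have hM2G : M2 ⊆ G1 := by
      intro e he
      rw [hM2, mem_filter] at he
      exact mem_filter.2 ⟨hM'G he.1, he.2⟩
    have hM2m : IsMatching M2 := hM'm.mono (filter_subset _ _)
    have htw : tw c M' = tw c M2 := by
      unfold tw
      rw [hM2]
      symm
      apply sum_filter_of_ne
      intro e _ hne
      have := hcle e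
      omega
    obtain ⟨M, hM⟩ := exists_lex G1 K c
    have hmiss := miss_le_one hG12 hKdef hwc (fun t _ => hcase t) hM
    have hKcl : Cl G1 K := by
      intro e he
      by_cases h : Disjoint e K
      · exact Or.inr h
      · rw [not_disjoint_iff] at h
        obtain ⟨y, hy, hyK⟩ := h
        left
        intro z hz
        rw [hKdef] at hyK ⊢
        exact hyK.tail ⟨e, he, hy, hz⟩
    have hMG : M ⊆ G1 := hM.1.1
    have hclM : Cl M K := fun e he => hKcl e (hMG he)
    have hcard := card_ins hM.1.2.1 (fun e he => hG12 e (hMG he)) hclM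
    have hle : K.card ≤ 2 * (ins M K).card + 1 := by omega
    have hsplit := tw_split hwc hMG
    have hopt := hM.1.2.2 M2 hM2G hM2m
    refine ⟨M, hMG.trans hG1G, hM.1.2.1, ?_⟩
    have h1 : ∑ e ∈ G, f e * (w e : ℝ) ≤ ∑ e ∈ G, f e * (c e : ℝ) +
        ∑ e ∈ G.filter (fun e => e ⊆ K), f e := by
      rw [sum_filter, ← sum_add_distrib]
      refine sum_le_sum fun e he => ?_
      have h2 : (w e : ℝ) ≤ (c e : ℝ) + if e ⊆ K then 1 else 0 := by
        by_cases heG : e ∈ G1
        · have := hwc e heG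
          rw [this]; push_cast; split_ifs <;> simp
        · have : c e = w e := by simp [c, heG]
          rw [this]
          split_ifs <;> simp
      have h3 := hf0 e
      split_ifs at h2 ⊢ with h4
      · nlinarith
      · nlinarith
    have h2 := hodd K ⟨x0, by rw [hKdef]⟩
    have h3 : (K.card : ℝ) ≤ 2 * ((ins M K).card : ℝ) + 1 := by exact_mod_cast hle
    have h4 : ((tw c M2 : ℕ) : ℝ) ≤ (tw c M : ℝ) := by exact_mod_cast hopt
    have h5 : (tw w M : ℝ) = (tw c M : ℝ) + ((ins M K).card : ℝ) := by exact_mod_cast hsplit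
    rw [htw] at hM'
    linarith

/-- Packing lemma for real weights (Edmonds: the vector `f` is in the matching polytope). -/
theorem real_pack {G : Finset (Finset V)} (hG2 : ∀ e ∈ G, e.card = 2) (f : Finset V → ℝ)
    (hf0 : ∀ e, 0 ≤ f e) (hdeg : ∀ x, ∑ e ∈ G.filter (fun e => x ∈ e), f e ≤ 1)
    (hodd : ∀ K : Finset V, K.Nonempty →
      ∑ e ∈ G.filter (fun e => e ⊆ K), f e ≤ ((K.card : ℝ) - 1) / 2)
    (w : Finset V → ℝ) (hw : ∀ e ∈ G, 0 ≤ w e) :
    ∃ M ⊆ G, IsMatching M ∧ ∑ e ∈ G, f e * w e ≤ ∑ e ∈ M, w e := by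
  classical
  let P := G.powerset.filter fun M => IsMatching M
  have hne : P.Nonempty := ⟨∅, by simp [P, isMatching_empty]⟩
  obtain ⟨M, hM, hmax⟩ := exists_max_image P (fun M => ∑ e ∈ M, w e) hne
  simp only [P, mem_filter, mem_powerset] at hM hmax
  refine ⟨M, hM.1, hM.2, ?_⟩
  have hn : ∀ n : ℕ, 0 < n → (n : ℝ) * ∑ e ∈ G, f e * w e - ∑ e ∈ G, f e ≤
      n * ∑ e ∈ M, w e := by
    intro n hn
    obtain ⟨M', hM'G, hM'm, hM'⟩ := int_pack hG2 f hf0 hdeg hodd _
      (fun e => ⌊(n : ℝ) * w e⌋₊) rfl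
    have h1 : (tw (fun e => ⌊(n : ℝ) * w e⌋₊) M' : ℝ) ≤ n * ∑ e ∈ M', w e := by
      unfold tw
      push_cast
      rw [mul_sum]
      refine sum_le_sum fun e he => Nat.floor_le ?_
      have := hw e (hM'G he)
      positivity
    have h2 := hmax M' ⟨hM'G, hM'm⟩
    have h3 : (n : ℝ) * ∑ e ∈ G, f e * w e - ∑ e ∈ G, f e ≤
        ∑ e ∈ G, f e * (⌊(n : ℝ) * w e⌋₊ : ℝ) := by
      rw [mul_sum, ← sum_sub_distrib]
      refine sum_le_sum fun e _ => ?_
      have h4 := Nat.lt_floor_add_one ((n : ℝ) * w e)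
      have h5 := hf0 e
      nlinarith
    have h6 : (n : ℝ) * ∑ e ∈ M', w e ≤ n * ∑ e ∈ M, w e := by
      apply mul_le_mul_of_nonneg_left h2
      positivity
    linarith
  by_contra hcon
  push Not at hcon
  set a := ∑ e ∈ G, f e * w e
  set b := ∑ e ∈ M, w e
  set s := ∑ e ∈ G, f e
  obtain ⟨n, hn1⟩ := exists_nat_gt (s / (a - b))
  have hab : 0 < a - b := by linarith
  have hs : 0 ≤ s := sum_nonneg fun e _ => hf0 e
  have hnpos : 0 < n := by
    have : (0 : ℝ) ≤ s / (a - b) := by positivity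
    have : (0 : ℝ) < n := lt_of_le_of_lt this hn1
    exact_mod_cast this
  have h1 := hn n hnpos
  rw [div_lt_iff₀ hab] at hn1
  nlinarith

end Pool.Agent.Furedi2
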