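import Mathlib

set_option autoImplicit false

namespace Pool.Agent.Furedi2

lemma int_mul_pred_nonneg (t : ℤ) : 0 ≤ t * (t - 1) := by
  rcases le_or_gt t 0 with h | h
  · nlinarith
  · have : 1 ≤ t := h
    nlinarith

lemma num_basic {a b D' m p : ℕ} (ha : 2 ≤ a) (hb : 2 ≤ b) (hm : a * m ≤ D')
    (hp : p ≤ m + b * min a m) :
    (a = b + 1 ∧ m = a ∧ D' = a ^ 2) ∨ 2 * p ≤ D' + b ^ 2 + 2 * b := by
  by_cases hma : m < a
  · right
    rw [min_eq_right hma.le] at hp
    zify at *
    have h1 := int_mul_pred_nonneg ((m : ℤ) - b)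
    have h2 : (m : ℤ) + 1 ≤ a := hma
    have h3 : ((m : ℤ) + 1) * m ≤ a * m := mul_le_mul_of_nonneg_right h2 (by positivity)
    nlinarith
  · push Not at hma
    rw [min_eq_left hma] at hp
    by_cases hab : a = b + 1
    · by_cases h4 : m = a ∧ D' = a ^ 2
      · exact Or.inl ⟨hab, h4.1, h4.2⟩
      · right
        by_cases h5 : m = a
        · have h6 : D' ≠ a ^ 2 := fun h => h4 ⟨h5, h⟩
          have h7 : a ^ 2 ≤ D' := by rw [h5] at hm; rw [pow_two]; exact hm
          have h8 : a ^ 2 + 1 ≤ D' := by omega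
          subst h5
          subst hab
          zify at *
          nlinarith
        · have h6 : a + 1 ≤ m := by omega
          subst hab
          zify at *
          have h7 : ((b : ℤ) + 1 + 1) * (b - 1) ≤ m * (b - 1) :=
            mul_le_mul_of_nonneg_right h6 (by linarith)
          nlinarith
    · right
      zify at *
      have h1 : 0 ≤ ((a : ℤ) - b) * (a - b - 2) := by
        rcases le_or_gt (a : ℤ) b with h | h
        · nlinarith
        · have h2 : (b : ℤ) + 2 ≤ a := by omega
          nlinarith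
      have h2 : ((a : ℤ)) * (a - 2) ≤ m * (a - 2) :=
        mul_le_mul_of_nonneg_right hma (by linarith)
      nlinarith

lemma num_strong {a b D' m p : ℕ} (ha : 2 ≤ a) (hb : 3 ≤ b) (hm : a * m ≤ D')
    (hp : p ≤ m + b * min a m) (hab : a ≤ m → a < b) :
    2 * p + 2 ≤ D' + b ^ 2 + 2 * b := by
  by_cases hma : m < a
  · rw [min_eq_right hma.le] at hp
    zify at *
    have h1 := int_mul_pred_nonneg ((m : ℤ) - b)
    have h2 : (m : ℤ) + 1 ≤ a := hma
    have h3 : ((m : ℤ) + 1) * m ≤ a * m := mul_le_mul_of_nonneg_right h2 (by positivity)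
    nlinarith
  · push Not at hma
    have hab' := hab hma
    rw [min_eq_left hma] at hp
    clear hab
    zify at *
    have h1 : 3 ≤ ((a : ℤ) - b) * (a - b - 2) := by nlinarith
    have h2 : ((a : ℤ)) * (a - 2) ≤ m * (a - 2) :=
      mul_le_mul_of_nonneg_right hma (by linarith)
    nlinarith

/-- the correction terms -/
lemma exists_eps (D : ℕ) : ∃ ε : ℕ → ℝ, (∀ a, 0 ≤ ε a) ∧ (∀ a, ε a ≤ 1 / 2) ∧
    (∀ a a', a ≤ a' → ε a ≤ ε a') ∧
    ∀ a b D' m p : ℕ, 2 ≤ a → 2 ≤ b → D' + b = D → a * m ≤ D' → p ≤ m + b * min a m →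
      (2 - 2 * ε a) * p + ((b : ℝ) + 1) * D' ≤ D * ((b : ℝ) + 2 - 2 * ε b) := by
  by_cases hD : ∃ b₀, 2 ≤ b₀ ∧ D = (b₀ + 1) ^ 2 + b₀
  · obtain ⟨b₀, hb₀, hD⟩ := hD
    have hη : (0 : ℝ) < 1 / (2 * ((b₀ : ℝ) + 1) ^ 2) := by positivity
    refine ⟨fun a => if b₀ + 1 ≤ a then 1 / (2 * ((b₀ : ℝ) + 1) ^ 2) else 0, ?_, ?_, ?_, ?_⟩
    · intro a
      dsimp only
      split_ifs
      · exact hη.le
      · exact le_rfl
    · intro a
      dsimp only
      split_ifs
      · rw [div_le_div_iff₀ (by positivity) (by norm_num)]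
        have : (0 : ℝ) ≤ b₀ := by positivity
        nlinarith
      · norm_num
    · intro a a' haa
      dsimp only
      split_ifs with h1 h2 h2
      · exact le_rfl
      · omega
      · exact hη.le
      · exact le_rfl
    · intro a b D' m p ha hb hDb hm hp
      have hDr : (D : ℝ) = D' + b := by rw [← hDb]; push_cast; ring
      have hDr' : (D : ℝ) = ((b₀ : ℝ) + 1) ^ 2 + b₀ := by rw [hD]; push_cast; ring
      have hp0 : (0 : ℝ) ≤ p := by positivity
      beta_reduce
      rcases lt_trichotomy b b₀ with hlt | heq | hgt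
      · -- `b < b₀`
        have h1 : ¬ b₀ + 1 ≤ b := by omega
        rw [if_neg h1]
        have h2 : 2 * p ≤ D' + b ^ 2 + 2 * b := by
          rcases num_basic ha hb hm hp with ⟨h3, h4, h5⟩ | h
          · exfalso
            rw [h5, h3, hD] at hDb
            nlinarith
          · exact h
        have h3 : 2 * (p : ℝ) ≤ D' + (b : ℝ) ^ 2 + 2 * b := by exact_mod_cast h2
        have h4 : (0 : ℝ) ≤ if b₀ + 1 ≤ a then 1 / (2 * ((b₀ : ℝ) + 1) ^ 2) else 0 := by
          split_ifs
          · exact hη.le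
          · exact le_rfl
        have h5 := mul_nonneg h4 hp0
        rw [hDr]
        nlinarith
      · -- `b = b₀`
        subst heq
        have h1 : ¬ b + 1 ≤ b := by omega
        rw [if_neg h1]
        rcases num_basic ha hb hm hp with ⟨h3, h4, h5⟩ | h
        · rw [if_pos h3.ge]
          rw [h4, min_self, h3] at hp
          have h6 : (p : ℝ) ≤ ((b : ℝ) + 1) ^ 2 := by
            have h7 : p ≤ (b + 1) ^ 2 := by
              refine hp.trans (le_of_eq ?_)
              ring
            exact_mod_cast h7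
          have h7 : (2 - 2 * (1 / (2 * ((b : ℝ) + 1) ^ 2))) * p ≤ 2 * ((b : ℝ) + 1) ^ 2 - 1 := by
            have h8 : 2 * (1 / (2 * ((b : ℝ) + 1) ^ 2)) = 1 / ((b : ℝ) + 1) ^ 2 := by
              field_simp
            rw [h8]
            have h9 : (0 : ℝ) ≤ 2 - 1 / ((b : ℝ) + 1) ^ 2 := by
              have h10 : (1 : ℝ) ≤ ((b : ℝ) + 1) ^ 2 := by
                have : (0 : ℝ) ≤ b := by positivity
                nlinarith
              have : 1 / ((b : ℝ) + 1) ^ 2 ≤ 1 := by
                rw [div_le_one (by positivity)]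
                exact h10
              linarith
            calc (2 - 1 / ((b : ℝ) + 1) ^ 2) * p ≤
                (2 - 1 / ((b : ℝ) + 1) ^ 2) * ((b : ℝ) + 1) ^ 2 :=
                  mul_le_mul_of_nonneg_left h6 h9
              _ = 2 * ((b : ℝ) + 1) ^ 2 - 1 := by
                  have : ((b : ℝ) + 1) ^ 2 ≠ 0 := by positivity
                  field_simp
          have h8 : (D' : ℝ) = ((b : ℝ) + 1) ^ 2 := by
            rw [h5, h3]; push_cast; ring
          rw [hDr]
          nlinarith
        · have h3 : 2 * (p : ℝ) ≤ D' + (b : ℝ) ^ 2 + 2 * b := by exact_mod_cast h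
          have h4 : (0 : ℝ) ≤ if b + 1 ≤ a then 1 / (2 * ((b : ℝ) + 1) ^ 2) else 0 := by
            split_ifs
            · exact hη.le
            · exact le_rfl
          have h5 := mul_nonneg h4 hp0
          rw [hDr]
          nlinarith
      · -- `b > b₀`
        have h1 : b₀ + 1 ≤ b := hgt
        rw [if_pos h1]
        have h2 : 2 * p + 2 ≤ D' + b ^ 2 + 2 * b := by
          refine num_strong ha (by omega) hm hp fun ham => ?_
          have h3 : a * a ≤ D' := (Nat.mul_le_mul_left a ham).trans hm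
          have h4 : D' < (b₀ + 1) ^ 2 := by omega
          have h5 : a < b₀ + 1 := by
            by_contra hcon
            push Not at hcon
            have : (b₀ + 1) * (b₀ + 1) ≤ a * a := Nat.mul_le_mul hcon hcon
            rw [pow_two] at h4
            omega
          omega
        have h3 : 2 * (p : ℝ) + 2 ≤ D' + (b : ℝ) ^ 2 + 2 * b := by exact_mod_cast h2
        have h4 : (0 : ℝ) ≤ if b₀ + 1 ≤ a then 1 / (2 * ((b₀ : ℝ) + 1) ^ 2) else 0 := by
          split_ifs
          · exact hη.le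
          · exact le_rfl
        have h5 := mul_nonneg h4 hp0
        have h6 : (D : ℝ) * (2 * (1 / (2 * ((b₀ : ℝ) + 1) ^ 2))) ≤ 2 := by
          have h7 : (D : ℝ) * (2 * (1 / (2 * ((b₀ : ℝ) + 1) ^ 2))) =
              D / ((b₀ : ℝ) + 1) ^ 2 := by
            field_simp
          rw [h7, div_le_iff₀ (by positivity), hDr']
          have : (0 : ℝ) ≤ b₀ := by positivity
          nlinarith
        have h7 : (D : ℝ) * ((b : ℝ) + 2 - 2 * (1 / (2 * ((b₀ : ℝ) + 1) ^ 2))) =
            D * ((b : ℝ) + 2) - D * (2 * (1 / (2 * ((b₀ : ℝ) + 1) ^ 2))) := by ring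
        rw [h7]
        have h8 : (D : ℝ) * ((b : ℝ) + 2) = (D' + b) * ((b : ℝ) + 2) := by rw [hDr]
        rw [h8]
        nlinarith
  · refine ⟨fun _ => 0, fun _ => le_rfl, fun _ => by norm_num, fun _ _ _ => le_rfl, ?_⟩
    intro a b D' m p ha hb hDb hm hp
    have hDr : (D : ℝ) = D' + b := by rw [← hDb]; push_cast; ring
    have h2 : 2 * p ≤ D' + b ^ 2 + 2 * b := by
      rcases num_basic ha hb hm hp with ⟨h3, h4, h5⟩ | h
      · exact absurd ⟨b, hb, by rw [← hDb, h5, h3]⟩ hD
      · exact h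
    have h3 : 2 * (p : ℝ) ≤ D' + (b : ℝ) ^ 2 + 2 * b := by exact_mod_cast h2
    rw [hDr]
    nlinarith

end Pool.Agent.Furedi2
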