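import Mathlib

set_option autoImplicit false

namespace Pool.Agent.Furedi2

open Finset

variable {ι : Type*} [DecidableEq ι]

/-- independent families for a conflict relation -/
def Indep (adj : ι → ι → Prop) (M : Finset ι) : Prop :=
  ∀ E ∈ M, ∀ F ∈ M, E ≠ F → ¬ adj E F

lemma sum_biUnion_le_of_nonneg {κ : Type*} [DecidableEq κ] (s : Finset κ) (t : κ → Finset ι)
    (f : ι → ℝ) (hf : ∀ x, 0 ≤ f x) :
    ∑ x ∈ s.biUnion t, f x ≤ ∑ i ∈ s, ∑ x ∈ t i, f x := by
  induction s using Finset.induction_on with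
  | empty => simp
  | insert a s ha ih =>
    rw [biUnion_insert, sum_insert ha]
    have h1 := sum_union_inter (s₁ := t a) (s₂ := s.biUnion t) (f := f)
    have h2 : 0 ≤ ∑ x ∈ t a ∩ s.biUnion t, f x := sum_nonneg fun x _ => hf x
    linarith

open Classical in
/-- the local ratio lemma -/
lemma local_ratio {adj : ι → ι → Prop} (hsymm : ∀ a b, adj a b → adj b a)
    {g : ι → ℝ} {R : ℝ} (hR : 0 ≤ R) :
    ∀ (n : ℕ) (S : Finset ι) (c : ι → ℝ) (B : ℝ), (S.filter fun u => 0 < c u).card ≤ n →
      (∀ u ∈ S, 0 ≤ g u) →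
      (∀ T ⊆ S, T.Nonempty → ∃ u ∈ T, ∑ u' ∈ T.filter (fun u' => u' = u ∨ adj u' u), g u' ≤ R) →
      (∀ T ⊆ S, Indep adj T → ∑ u ∈ T, c u ≤ B) →
      ∑ u ∈ S, g u * max (c u) 0 ≤ R * B := by
  intro n
  induction n with
  | zero =>
    intro S c B hn hg _ hB
    have hB0 : 0 ≤ B := by
      have := hB ∅ (empty_subset _) (fun E hE => absurd hE (notMem_empty _))
      simpa using this
    have h0 : ∀ u ∈ S, g u * max (c u) 0 = 0 := by
      intro u hu
      have : ¬ 0 < c u := by
        intro h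
        have h2 : u ∈ S.filter fun u => 0 < c u := mem_filter.2 ⟨hu, h⟩
        have h1 := card_pos.2 ⟨u, h2⟩
        omega
      rw [max_eq_right (not_lt.1 this), mul_zero]
    rw [sum_eq_zero h0]
    positivity
  | succ n ih =>
    intro S c B hn hg hS hB
    set P := S.filter fun u => 0 < c u with hP
    have hPS : P ⊆ S := filter_subset _ _
    by_cases hne : P.Nonempty
    · obtain ⟨u₀, hu₀, hu₀R⟩ := hS P hPS hne
      have ht : 0 < c u₀ := (mem_filter.1 hu₀).2
      set c' : ι → ℝ := fun u => if u = u₀ ∨ adj u u₀ then c u - c u₀ else c u with hc'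
      have hc'le : ∀ u, c' u ≤ c u := by
        intro u
        simp only [hc']
        split_ifs <;> linarith
      have hcard : (P.filter fun u => 0 < c' u).card ≤ n := by
        have h1 : (P.filter fun u => 0 < c' u) ⊆ P.erase u₀ := by
          intro u hu
          obtain ⟨h2, h3⟩ := mem_filter.1 hu
          refine mem_erase.2 ⟨?_, h2⟩
          rintro rfl
          simp [hc'] at h3
        have h2 := card_le_card h1
        rw [card_erase_of_mem hu₀] at h2
        omega
      have hih := ih P c' (B - c u₀) hcard (fun u hu => hg u (hPS hu))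
        (fun T hT => hS T (hT.trans hPS)) ?_
      · have h1 : ∑ u ∈ S, g u * max (c u) 0 = ∑ u ∈ P, g u * c u := by
          rw [hP, sum_filter]
          refine sum_congr rfl fun u _ => ?_
          split_ifs with h
          · rw [max_eq_left h.le]
          · rw [max_eq_right (not_lt.1 h), mul_zero]
        have h2 : ∑ u ∈ P, g u * c u = ∑ u ∈ P, g u * c' u +
            c u₀ * ∑ u' ∈ P.filter (fun u' => u' = u₀ ∨ adj u' u₀), g u' := by
          have h5 : ∑ u' ∈ P.filter (fun u' => u' = u₀ ∨ adj u' u₀), g u' =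
              ∑ u' ∈ P, if u' = u₀ ∨ adj u' u₀ then g u' else 0 := sum_filter _ _
          rw [h5, mul_sum, ← sum_add_distrib]
          refine sum_congr rfl fun u _ => ?_
          simp only [hc']
          split_ifs <;> ring
        have h3 : ∑ u ∈ P, g u * c' u ≤ ∑ u ∈ P, g u * max (c' u) 0 :=
          sum_le_sum fun u hu => mul_le_mul_of_nonneg_left (le_max_left _ _) (hg u (hPS hu))
        have h4 : c u₀ * ∑ u' ∈ P.filter (fun u' => u' = u₀ ∨ adj u' u₀), g u' ≤ c u₀ * R :=
          mul_le_mul_of_nonneg_left hu₀R ht.le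
        rw [h1, h2]
        calc _ ≤ R * (B - c u₀) + c u₀ * R := by linarith
          _ = R * B := by ring
      · intro T hT hTi
        by_cases hex : ∃ u ∈ T, u = u₀ ∨ adj u u₀
        · obtain ⟨u, huT, hu⟩ := hex
          have h1 : ∑ a ∈ T, c' a + c u₀ ≤ ∑ a ∈ T, c a := by
            rw [← add_sum_erase T c' huT, ← add_sum_erase T c huT]
            have h2 : c' u = c u - c u₀ := by simp only [hc']; rw [if_pos hu]
            have h3 : ∑ a ∈ T.erase u, c' a ≤ ∑ a ∈ T.erase u, c a :=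
              sum_le_sum fun a _ => hc'le a
            linarith
          have h2 := hB T (hT.trans hPS) hTi
          linarith
        · push Not at hex
          have h1 : ∑ a ∈ T, c' a = ∑ a ∈ T, c a := by
            refine sum_congr rfl fun a ha => ?_
            simp only [hc']
            rw [if_neg]
            have := hex a ha
            tauto
          have hnot : u₀ ∉ T := fun h => (hex u₀ h).1 rfl
          have h2 := hB (insert u₀ T) ?_ ?_
          · rw [sum_insert hnot] at h2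
            rw [h1]
            linarith
          · intro a ha
            rcases mem_insert.1 ha with rfl | ha
            · exact hPS hu₀
            · exact hPS (hT ha)
          · intro E hE F hF hEF
            rw [mem_insert] at hE hF
            rcases hE with rfl | hE <;> rcases hF with rfl | hF
            · exact absurd rfl hEF
            · exact fun h => (hex F hF).2 (hsymm _ _ h)
            · exact (hex E hE).2
            · exact hTi E hE F hF hEF
    · have hB0 : 0 ≤ B := by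
        have := hB ∅ (empty_subset _) (fun E hE => absurd hE (notMem_empty _))
        simpa using this
      rw [not_nonempty_iff_eq_empty] at hne
      have h0 : ∀ u ∈ S, g u * max (c u) 0 = 0 := by
        intro u hu
        have : ¬ 0 < c u := by
          intro h
          have h1 : u ∈ P := mem_filter.2 ⟨hu, h⟩
          rw [hne] at h1
          exact absurd h1 (notMem_empty _)
        rw [max_eq_right (not_lt.1 this), mul_zero]
      rw [sum_eq_zero h0]
      positivity

open Classical in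
/-- The potential theorem: a weighted local condition on a finite conflict graph bounds the
fractional chromatic number by `K + 1`. -/
theorem potential {adj : ι → ι → Prop} (hsymm : ∀ a b, adj a b → adj b a)
    (H : Finset ι) {g : ι → ℝ} (hg : ∀ u ∈ H, 0 < g u) {K : ℝ} (hK : 0 ≤ K)
    (hloc : ∀ v ∈ H, ∀ S ⊆ H.filter (fun u => u ≠ v ∧ adj u v), S.Nonempty →
      ∃ u ∈ S, ∑ u' ∈ S.filter (fun u' => u' = u ∨ adj u' u), g u' +
        ∑ u' ∈ H.filter (fun u => u ≠ v ∧ adj u v), g u' ≤ 2 * K * g v)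
    (w : ι → ℝ) (hw : ∀ u ∈ H, 0 ≤ w u) :
    ∃ M ⊆ H, Indep adj M ∧ ∑ u ∈ H, w u ≤ (K + 1) * ∑ u ∈ M, w u := by
  set W : ι → ℝ := fun u => w u / g u with hWdef
  have hW0 : ∀ u ∈ H, 0 ≤ W u := fun u hu => div_nonneg (hw u hu) (hg u hu).le
  have hwW : ∀ u ∈ H, w u = g u * W u := by
    intro u hu
    have := (hg u hu).ne'
    simp only [hWdef]
    field_simp
  -- the extremal independent set
  obtain ⟨M, hM, hmax⟩ := exists_max_image (H.powerset.filter fun M => Indep adj M)
    (fun M => ∑ E ∈ M, (W E) ^ 2) ⟨∅, by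
      rw [mem_filter, mem_powerset]
      exact ⟨empty_subset _, fun E hE => absurd hE (notMem_empty _)⟩⟩
  rw [mem_filter, mem_powerset] at hM
  obtain ⟨hMH, hMi⟩ := hM
  have hmax' : ∀ M' ⊆ H, Indep adj M' → ∑ E ∈ M', (W E) ^ 2 ≤ ∑ E ∈ M, (W E) ^ 2 :=
    fun M' h1 h2 => hmax M' (by rw [mem_filter, mem_powerset]; exact ⟨h1, h2⟩)
  set N : ι → Finset ι := fun u => M.filter fun f => adj f u with hN
  have hNM : ∀ u, N u ⊆ M := fun u => filter_subset _ _
  -- exchange property
  have hexch : ∀ T ⊆ H \ M, Indep adj T →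
      ∑ u ∈ T, (W u) ^ 2 ≤ ∑ f ∈ T.biUnion N, (W f) ^ 2 := by
    intro T hT hTi
    have h1 := hmax' ((M \ T.biUnion N) ∪ T) ?_ ?_
    · have hd : Disjoint (M \ T.biUnion N) T := by
        rw [disjoint_left]
        intro E hE hE'
        exact (mem_sdiff.1 (hT hE')).2 (mem_sdiff.1 hE).1
      rw [sum_union hd] at h1
      have h2 := sum_sdiff (s₁ := T.biUnion N) (s₂ := M) (f := fun E => (W E) ^ 2)
        (biUnion_subset.2 fun u _ => hNM u)
      linarith
    · exact union_subset (sdiff_subset.trans hMH) (hT.trans sdiff_subset)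
    · intro E hE F hF hEF
      rw [mem_union] at hE hF
      have key : ∀ E ∈ M \ T.biUnion N, ∀ F ∈ T, ¬ adj E F := by
        intro E hE F hF h
        exact (mem_sdiff.1 hE).2 (mem_biUnion.2 ⟨F, hF, mem_filter.2 ⟨(mem_sdiff.1 hE).1, h⟩⟩)
      rcases hE with hE | hE <;> rcases hF with hF | hF
      · exact hMi E (mem_sdiff.1 hE).1 F (mem_sdiff.1 hF).1 hEF
      · exact key E hE F hF
      · exact fun h => key F hF E hE (hsymm _ _ h)
      · exact hTi E hE F hF hEF
  set U := (H \ M).filter fun u => 0 < w u with hU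
  have hUHM : U ⊆ H \ M := filter_subset _ _
  have hUH : U ⊆ H := hUHM.trans sdiff_subset
  have hWpos : ∀ u ∈ U, 0 < W u := fun u hu =>
    div_pos (mem_filter.1 hu).2 (hg u (hUH hu))
  have hNne : ∀ u ∈ U, (N u).Nonempty := by
    intro u hu
    by_contra hne
    rw [not_nonempty_iff_eq_empty] at hne
    have h1 := hexch {u} (singleton_subset_iff.2 (hUHM hu)) (by
      intro E hE F hF hEF
      rw [mem_singleton] at hE hF
      exact absurd (hE.trans hF.symm) hEF)
    rw [sum_singleton, singleton_biUnion, hne, sum_empty] at h1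
    have := hWpos u hu
    nlinarith
  have hex : ∀ u, ∃ v, u ∈ U → (v ∈ N u ∧ ∀ f ∈ N u, W f ≤ W v) := by
    intro u
    by_cases hu : u ∈ U
    · obtain ⟨v, hv, hv'⟩ := exists_max_image (N u) W (hNne u hu)
      exact ⟨v, fun _ => ⟨hv, hv'⟩⟩
    · exact ⟨u, fun h => absurd h hu⟩
  choose n hn using hex
  set c : ι → ℝ := fun u => W u - (1 / 2) * ∑ f ∈ N u, W f with hc
  -- (L1)
  have hL1 : ∀ v ∈ M, ∀ T ⊆ U.filter (fun u => n u = v), Indep adj T →
      ∑ u ∈ T, c u ≤ W v / 2 := by
    intro v hv T hT hTi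
    have hTU : T ⊆ U := hT.trans (filter_subset _ _)
    have hWv : 0 ≤ W v := hW0 v (hMH hv)
    rcases T.eq_empty_or_nonempty with rfl | hTne
    · rw [sum_empty]; positivity
    have hvN : ∀ u ∈ T, v ∈ N u ∧ ∀ f ∈ N u, W f ≤ W v := by
      intro u hu
      have h1 := hn u (hTU hu)
      rw [(mem_filter.1 (hT hu)).2] at h1
      exact h1
    have h1 := hexch T (hTU.trans hUHM) hTi
    have h2 : ∑ f ∈ T.biUnion N, (W f) ^ 2 ≤
        (W v) ^ 2 + ∑ u ∈ T, ∑ f ∈ (N u).erase v, (W f) ^ 2 := by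
      have h3 : T.biUnion N ⊆ insert v (T.biUnion fun u => (N u).erase v) := by
        intro f hf
        obtain ⟨u, hu, hfu⟩ := mem_biUnion.1 hf
        by_cases hfv : f = v
        · rw [hfv]; exact mem_insert_self _ _
        · exact mem_insert_of_mem (mem_biUnion.2 ⟨u, hu, mem_erase.2 ⟨hfv, hfu⟩⟩)
      have h4 : v ∉ T.biUnion fun u => (N u).erase v := by
        intro h
        obtain ⟨u, _, hu⟩ := mem_biUnion.1 h
        exact (mem_erase.1 hu).1 rfl
      calc ∑ f ∈ T.biUnion N, (W f) ^ 2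
          ≤ ∑ f ∈ insert v (T.biUnion fun u => (N u).erase v), (W f) ^ 2 :=
            sum_le_sum_of_subset_of_nonneg h3 fun f _ _ => sq_nonneg _
        _ = (W v) ^ 2 + ∑ f ∈ T.biUnion (fun u => (N u).erase v), (W f) ^ 2 := sum_insert h4
        _ ≤ (W v) ^ 2 + ∑ u ∈ T, ∑ f ∈ (N u).erase v, (W f) ^ 2 := by
            gcongr
            exact sum_biUnion_le_of_nonneg T (fun u => (N u).erase v) _ fun f => sq_nonneg _
    have h3 : ∀ u ∈ T, ∑ f ∈ (N u).erase v, (W f) ^ 2 ≤
        (W u) ^ 2 - 2 * c u * W v - (W u - W v) ^ 2 := by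
      intro u hu
      obtain ⟨hv1, hv2⟩ := hvN u hu
      have h4 : ∑ f ∈ (N u).erase v, (W f) ^ 2 ≤ ∑ f ∈ (N u).erase v, W v * W f := by
        refine sum_le_sum fun f hf => ?_
        have hf' := (mem_erase.1 hf).2
        have h5 := hv2 f hf'
        have h6 := hW0 f (hMH (hNM u hf'))
        nlinarith
      have h5 : ∑ f ∈ (N u).erase v, W f = 2 * (W u - c u) - W v := by
        have h6 := add_sum_erase (N u) W hv1
        simp only [hc]
        linarith
      rw [← mul_sum, h5] at h4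
      nlinarith
    have h4 := sum_le_sum h3
    have h5 : ∑ u ∈ T, ((W u) ^ 2 - 2 * c u * W v - (W u - W v) ^ 2) =
        ∑ u ∈ T, (W u) ^ 2 - 2 * W v * ∑ u ∈ T, c u - ∑ u ∈ T, (W u - W v) ^ 2 := by
      rw [sum_sub_distrib, sum_sub_distrib, mul_sum]
      congr 2
      exact sum_congr rfl fun u _ => by ring
    rw [h5] at h4
    rcases hWv.eq_or_lt with h0 | hpos
    · exfalso
      obtain ⟨u, hu⟩ := hTne
      have h6 := hvN u hu
      have h7 : ∀ u ∈ T, 0 ≤ (W u) ^ 2 := fun u _ => sq_nonneg _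
      have h8 := single_le_sum h7 hu
      have h9 := hWpos u (hTU hu)
      have h10 : ∑ u ∈ T, (W u - W v) ^ 2 = ∑ u ∈ T, (W u) ^ 2 := by
        rw [← h0]; simp
      rw [h10, ← h0] at h4
      rw [← h0] at h2
      nlinarith
    · have h6 : 0 ≤ ∑ u ∈ T, (W u - W v) ^ 2 := sum_nonneg fun u _ => sq_nonneg _
      have h7 : 2 * W v * ∑ u ∈ T, c u ≤ (W v) ^ 2 := by linarith
      by_contra hcon
      push Not at hcon
      nlinarith
  set G : ι → ℝ := fun v => ∑ u' ∈ H.filter (fun u => u ≠ v ∧ adj u v), g u' with hG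
  -- (L2)
  have hRnn : ∀ v ∈ H, 0 ≤ 2 * K * g v - G v := by
    intro v hv
    rcases (H.filter (fun u => u ≠ v ∧ adj u v)).eq_empty_or_nonempty with h | h
    · simp only [hG]
      rw [h, sum_empty]
      have := (hg v hv).le
      nlinarith [mul_nonneg hK this]
    · obtain ⟨u, hu, hu'⟩ := hloc v hv _ (Subset.refl _) h
      have h1 : 0 ≤ ∑ u' ∈ (H.filter (fun u => u ≠ v ∧ adj u v)).filter
          (fun u' => u' = u ∨ adj u' u), g u' :=
        sum_nonneg fun x hx => (hg x (mem_filter.1 (mem_filter.1 hx).1).1).le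
      simp only [hG]
      linarith
  have hL2 : ∀ v ∈ M, ∑ u ∈ U.filter (fun u => n u = v), g u * max (c u) 0 ≤
      (2 * K * g v - G v) * (W v / 2) := by
    intro v hv
    have hvH := hMH hv
    refine local_ratio hsymm (hRnn v hvH) _ _ c (W v / 2) le_rfl ?_ ?_ (hL1 v hv)
    · intro u hu
      exact (hg u (hUH (mem_filter.1 hu).1)).le
    · intro T hT hTne
      have hTs : T ⊆ H.filter (fun u => u ≠ v ∧ adj u v) := by
        intro u hu
        obtain ⟨h1, h2⟩ := mem_filter.1 (hT hu)
        have h3 := (hn u h1).1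
        rw [h2] at h3
        refine mem_filter.2 ⟨hUH h1, ?_, hsymm _ _ (mem_filter.1 h3).2⟩
        rintro rfl
        exact (mem_sdiff.1 (hUHM h1)).2 hv
      obtain ⟨u, hu, hu'⟩ := hloc v hvH T hTs hTne
      refine ⟨u, hu, ?_⟩
      simp only [hG]
      linarith
  -- the final count
  refine ⟨M, hMH, hMi, ?_⟩
  have hmaps : ∀ u ∈ U, n u ∈ M := fun u hu => hNM u (hn u hu).1
  have hs1 : ∑ u ∈ H, w u = ∑ u ∈ M, w u + ∑ u ∈ H \ M, w u := by
    rw [add_comm]; exact (sum_sdiff hMH).symm
  have hs2 : ∑ u ∈ H \ M, w u = ∑ u ∈ U, w u := by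
    rw [hU, sum_filter]
    refine sum_congr rfl fun u hu => ?_
    split_ifs with h
    · rfl
    · exact le_antisymm (not_lt.1 h) (hw u (mem_sdiff.1 hu).1)
  have hs3 : ∑ u ∈ U, w u ≤ ∑ u ∈ U, g u * max (c u) 0 +
      ∑ u ∈ U, (1 / 2) * (g u * ∑ f ∈ N u, W f) := by
    rw [← sum_add_distrib]
    refine sum_le_sum fun u hu => ?_
    rw [hwW u (hUH hu)]
    have h1 : W u ≤ max (c u) 0 + (1 / 2) * ∑ f ∈ N u, W f := by
      have := le_max_left (c u) 0
      simp only [hc] at this ⊢
      linarith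
    have h2 := mul_le_mul_of_nonneg_left h1 (hg u (hUH hu)).le
    linarith
  have hs4 : ∑ u ∈ U, g u * max (c u) 0 ≤ ∑ v ∈ M, (2 * K * g v - G v) * (W v / 2) := by
    rw [← sum_fiberwise_of_maps_to hmaps]
    exact sum_le_sum hL2
  have hs5 : ∑ u ∈ U, (1 / 2) * (g u * ∑ f ∈ N u, W f) ≤ ∑ v ∈ M, (1 / 2) * (G v * W v) := by
    have h1 : ∑ u ∈ U, (1 / 2) * (g u * ∑ f ∈ N u, W f) =
        ∑ f ∈ M, ∑ u ∈ U.filter (fun u => adj f u), (1 / 2) * (g u * W f) := by
      have h2 : ∀ u ∈ U, (1 / 2) * (g u * ∑ f ∈ N u, W f) =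
          ∑ f ∈ N u, (1 / 2) * (g u * W f) := by
        intro u _
        rw [mul_sum, mul_sum]
      rw [sum_congr rfl h2]
      refine sum_comm' ?_
      intro u f
      simp only [hN, mem_filter]
      tauto
    rw [h1]
    refine sum_le_sum fun v hv => ?_
    rw [← mul_sum, ← sum_mul]
    have h2 : ∑ u ∈ U.filter (fun u => adj v u), g u ≤ G v := by
      simp only [hG]
      refine sum_le_sum_of_subset_of_nonneg ?_ fun x hx _ => (hg x (mem_filter.1 hx).1).le
      intro u hu
      obtain ⟨h3, h4⟩ := mem_filter.1 hu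
      refine mem_filter.2 ⟨hUH h3, ?_, hsymm _ _ h4⟩
      rintro rfl
      exact (mem_sdiff.1 (hUHM h3)).2 hv
    have h3 := mul_le_mul_of_nonneg_right h2 (hW0 v (hMH hv))
    linarith
  have hs6 : ∑ u ∈ M, w u = ∑ v ∈ M, g v * W v := sum_congr rfl fun v hv => hwW v (hMH hv)
  have hs7 : ∑ v ∈ M, g v * W v + (∑ v ∈ M, (2 * K * g v - G v) * (W v / 2) +
      ∑ v ∈ M, (1 / 2) * (G v * W v)) = (K + 1) * ∑ v ∈ M, g v * W v := by
    rw [← sum_add_distrib, ← sum_add_distrib, mul_sum]
    exact sum_congr rfl fun v _ => by ring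
  rw [hs1, hs2]
  rw [hs6]
  rw [← hs7]
  linarith

end Pool.Agent.Furedi2
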