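import Mathlib
import Pool.Agent.Furedi2.Potential
import Pool.Agent.Furedi2.Num

set_option autoImplicit false

namespace Pool.Agent.Furedi2

open Finset

variable {V : Type*} [DecidableEq V]

/-- the weights used in the potential -/
noncomputable def gw (ε : ℕ → ℝ) (F : Finset V) : ℝ := ((F.card : ℝ) + 1) / 2 - ε (F.card - 1)

lemma unique_of_linear {H : Finset (Finset V)}
    (hlin : ∀ E ∈ H, ∀ F ∈ H, E ≠ F → (E ∩ F).card ≤ 1) {E F : Finset V} (hE : E ∈ H)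
    (hF : F ∈ H) {x y : V} (hxE : x ∈ E) (hxF : x ∈ F) (hyE : y ∈ E) (hyF : y ∈ F)
    (hxy : x ≠ y) : E = F := by
  by_contra hne
  have h3 := hlin E hE F hF hne
  have h4 : ({x, y} : Finset V) ⊆ E ∩ F := by
    intro z hz
    rw [mem_insert, mem_singleton] at hz
    rcases hz with rfl | rfl
    · exact mem_inter.2 ⟨hxE, hxF⟩
    · exact mem_inter.2 ⟨hyE, hyF⟩
  have h5 := card_le_card h4
  rw [card_pair hxy] at h5
  omega

open Classical in
lemma local_ineq {H : Finset (Finset V)}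
    (hlin : ∀ E ∈ H, ∀ F ∈ H, E ≠ F → (E ∩ F).card ≤ 1)
    (h3 : ∀ E ∈ H, 3 ≤ E.card) {D : ℕ}
    (hD : ∀ x, ∑ E ∈ H.filter (fun E => x ∈ E), (E.card - 1) ≤ D)
    {ε : ℕ → ℝ} (hε0 : ∀ a, 0 ≤ ε a) (hmono : ∀ a a', a ≤ a' → ε a ≤ ε a') (hε1 : ∀ a, ε a ≤ 1 / 2)
    (hnum : ∀ a b D' m p : ℕ, 2 ≤ a → 2 ≤ b → D' + b = D → a * m ≤ D' → p ≤ m + b * min a m →
      (2 - 2 * ε a) * p + ((b : ℝ) + 1) * D' ≤ D * ((b : ℝ) + 2 - 2 * ε b)) :
    ∀ v ∈ H, ∀ S ⊆ H.filter (fun u => u ≠ v ∧ ¬ Disjoint u v), S.Nonempty →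
      ∃ u ∈ S, ∑ u' ∈ S.filter (fun u' => u' = u ∨ ¬ Disjoint u' u), gw ε u' +
        ∑ u' ∈ H.filter (fun u => u ≠ v ∧ ¬ Disjoint u v), gw ε u' ≤ 2 * (D : ℝ) * gw ε v := by
  intro v hv S hS hSne
  obtain ⟨u, hu, hmin⟩ := exists_min_image S card hSne
  have hSH : ∀ u' ∈ S, u' ∈ H := fun u' h => (mem_filter.1 (hS h)).1
  have hSv : ∀ u' ∈ S, u' ≠ v := fun u' h => (mem_filter.1 (hS h)).2.1
  have hSd : ∀ u' ∈ S, ¬ Disjoint u' v := fun u' h => (mem_filter.1 (hS h)).2.2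
  obtain ⟨a, ha⟩ : ∃ a, u.card = a + 1 := ⟨u.card - 1, by have := h3 u (hSH u hu); omega⟩
  obtain ⟨b, hb⟩ : ∃ b, v.card = b + 1 := ⟨v.card - 1, by have := h3 v hv; omega⟩
  have ha2 : 2 ≤ a := by have := h3 u (hSH u hu); omega
  have hb2 : 2 ≤ b := by have := h3 v hv; omega
  obtain ⟨x₀, hx₀u, hx₀v⟩ := not_disjoint_iff.1 (hSd u hu)
  have hsplit : ∀ x ∈ v, ∑ E ∈ (H.filter fun E => x ∈ E).erase v, (E.card - 1) + b ≤ D := by
    intro x hx
    have h4 := sum_erase_add (H.filter fun E => x ∈ E) (fun B => B.card - 1)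
      (mem_filter.2 ⟨hv, hx⟩)
    have h5 := hD x
    rw [← h4, hb] at h5
    simpa using h5
  have hbD : b ≤ D := le_trans (Nat.le_add_left _ _) (hsplit x₀ hx₀v)
  obtain ⟨D', hD'⟩ : ∃ D', D' + b = D := ⟨D - b, by omega⟩
  have hsplit' : ∀ x ∈ v, ∑ E ∈ (H.filter fun E => x ∈ E).erase v, (E.card - 1) ≤ D' := by
    intro x hx
    have := hsplit x hx
    omega
  set Q : V → Finset (Finset V) := fun x => (H.filter fun E => x ∈ E).erase v with hQ
  set P : V → Finset (Finset V) := fun x =>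
    S.filter fun u' => x ∈ u' ∧ (u' = u ∨ ¬ Disjoint u' u) with hP
  have hPQ : ∀ x, P x ⊆ Q x := by
    intro x u' h
    obtain ⟨h4, h5, _⟩ := mem_filter.1 h
    exact mem_erase.2 ⟨hSv u' h4, mem_filter.2 ⟨hSH u' h4, h5⟩⟩
  have hQH : ∀ x, ∀ E ∈ Q x, E ∈ H := fun x E h => (mem_filter.1 (mem_erase.1 h).2).1
  have hg0 : ∀ E ∈ H, 0 ≤ gw ε E := by
    intro E hE
    have h4 : (3 : ℝ) ≤ E.card := by exact_mod_cast h3 E hE
    have h5 := hε1 (E.card - 1)
    unfold gw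
    linarith
  set g' : Finset V → ℝ := fun E => if E ∈ H then gw ε E else 0 with hg'
  have hg'0 : ∀ E, 0 ≤ g' E := by
    intro E
    simp only [hg']
    split_ifs with h
    · exact hg0 E h
    · exact le_rfl
  have hg'H : ∀ E ∈ H, gw ε E = g' E := by
    intro E h
    simp only [hg']
    rw [if_pos h]
  -- counted edges
  have hcount1 : ∑ u' ∈ S.filter (fun u' => u' = u ∨ ¬ Disjoint u' u), gw ε u' ≤
      ∑ x ∈ v, ∑ u' ∈ P x, gw ε u' := by
    have h4 : S.filter (fun u' => u' = u ∨ ¬ Disjoint u' u) ⊆ v.biUnion P := by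
      intro u' h
      obtain ⟨h5, h6⟩ := mem_filter.1 h
      obtain ⟨x, hx1, hx2⟩ := not_disjoint_iff.1 (hSd u' h5)
      exact mem_biUnion.2 ⟨x, hx2, mem_filter.2 ⟨h5, hx1, h6⟩⟩
    calc ∑ u' ∈ S.filter (fun u' => u' = u ∨ ¬ Disjoint u' u), gw ε u'
        = ∑ u' ∈ S.filter (fun u' => u' = u ∨ ¬ Disjoint u' u), g' u' :=
          sum_congr rfl fun E hE => hg'H E (hSH E (mem_filter.1 hE).1)
      _ ≤ ∑ u' ∈ v.biUnion P, g' u' :=
          sum_le_sum_of_subset_of_nonneg h4 fun E _ _ => hg'0 E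
      _ ≤ ∑ x ∈ v, ∑ u' ∈ P x, g' u' := sum_biUnion_le_of_nonneg _ _ _ hg'0
      _ = ∑ x ∈ v, ∑ u' ∈ P x, gw ε u' :=
          sum_congr rfl fun x _ => sum_congr rfl fun E hE =>
            (hg'H E (hSH E (mem_filter.1 hE).1)).symm
  have hcount2 : ∑ u' ∈ H.filter (fun u => u ≠ v ∧ ¬ Disjoint u v), gw ε u' ≤
      ∑ x ∈ v, ∑ u' ∈ Q x, gw ε u' := by
    have h4 : H.filter (fun u => u ≠ v ∧ ¬ Disjoint u v) ⊆ v.biUnion Q := by
      intro u' h
      obtain ⟨h5, h6, h7⟩ := mem_filter.1 h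
      obtain ⟨x, hx1, hx2⟩ := not_disjoint_iff.1 h7
      exact mem_biUnion.2 ⟨x, hx2, mem_erase.2 ⟨h6, mem_filter.2 ⟨h5, hx1⟩⟩⟩
    calc ∑ u' ∈ H.filter (fun u => u ≠ v ∧ ¬ Disjoint u v), gw ε u'
        = ∑ u' ∈ H.filter (fun u => u ≠ v ∧ ¬ Disjoint u v), g' u' :=
          sum_congr rfl fun E hE => hg'H E (mem_filter.1 hE).1
      _ ≤ ∑ u' ∈ v.biUnion Q, g' u' :=
          sum_le_sum_of_subset_of_nonneg h4 fun E _ _ => hg'0 E
      _ ≤ ∑ x ∈ v, ∑ u' ∈ Q x, g' u' := sum_biUnion_le_of_nonneg _ _ _ hg'0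
      _ = ∑ x ∈ v, ∑ u' ∈ Q x, gw ε u' :=
          sum_congr rfl fun x _ => sum_congr rfl fun E hE => (hg'H E (hQH x E hE)).symm
  -- one vertex of `v`
  have hPcard : ∀ x ∈ v, (P x).card * a ≤ D' := by
    intro x hx
    calc (P x).card * a = ∑ E ∈ P x, a := by rw [sum_const, smul_eq_mul]
      _ ≤ ∑ E ∈ P x, (E.card - 1) := by
          refine sum_le_sum fun E hE => ?_
          have := hmin E (mem_filter.1 hE).1
          omega
      _ ≤ ∑ E ∈ Q x, (E.card - 1) := sum_le_sum_of_subset (hPQ x)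
      _ ≤ D' := hsplit' x hx
  have hone : ∀ x ∈ v, ∑ u' ∈ P x, gw ε u' + ∑ u' ∈ Q x, gw ε u' ≤
      D' + (2 - 2 * ε a) * (P x).card := by
    intro x hx
    have h4 : ∑ u' ∈ Q x, gw ε u' = ∑ u' ∈ Q x \ P x, gw ε u' + ∑ u' ∈ P x, gw ε u' :=
      (sum_sdiff (hPQ x)).symm
    have h5 : ∑ u' ∈ Q x \ P x, gw ε u' ≤ ∑ u' ∈ Q x \ P x, ((u'.card - 1 : ℕ) : ℝ) := by
      refine sum_le_sum fun E hE => ?_
      have h6 := h3 E (hQH x E (mem_sdiff.1 hE).1)
      have h7 : (3 : ℝ) ≤ E.card := by exact_mod_cast h6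
      have h8 := hε0 (E.card - 1)
      rw [Nat.cast_sub (by omega), Nat.cast_one]
      unfold gw
      linarith
    have h6 : ∑ u' ∈ P x, (gw ε u' + gw ε u') ≤
        ∑ u' ∈ P x, (((u'.card - 1 : ℕ) : ℝ) + (2 - 2 * ε a)) := by
      refine sum_le_sum fun E hE => ?_
      have h7 := h3 E (hSH E (mem_filter.1 hE).1)
      have h8 : ε a ≤ ε (E.card - 1) := by
        apply hmono
        have := hmin E (mem_filter.1 hE).1
        omega
      rw [Nat.cast_sub (by omega), Nat.cast_one]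
      unfold gw
      linarith
    rw [sum_add_distrib, sum_add_distrib, sum_const, nsmul_eq_mul] at h6
    have h7 : ∑ u' ∈ Q x \ P x, ((u'.card - 1 : ℕ) : ℝ) + ∑ u' ∈ P x, ((u'.card - 1 : ℕ) : ℝ) =
        ∑ u' ∈ Q x, ((u'.card - 1 : ℕ) : ℝ) := sum_sdiff (hPQ x)
    have h8 : ∑ u' ∈ Q x, ((u'.card - 1 : ℕ) : ℝ) ≤ D' := by
      have := hsplit' x hx
      exact_mod_cast this
    linarith
  -- other vertices of `v`
  have hother : ∀ x ∈ v, x ≠ x₀ → (P x).card ≤ a := by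
    intro x hx hxx
    have hxu : x ∉ u := by
      intro h
      exact hSv u hu (unique_of_linear hlin (hSH u hu) hv hx₀u hx₀v h hx hxx.symm)
    have hd : ((P x : Finset (Finset V)) : Set (Finset V)).PairwiseDisjoint
        (fun F => F ∩ u.erase x₀) := by
      intro F hF G hG hFG
      rw [Function.onFun, disjoint_left]
      intro y hy1 hy2
      rw [mem_inter] at hy1 hy2
      have hF' := mem_filter.1 (mem_coe.1 hF)
      have hG' := mem_filter.1 (mem_coe.1 hG)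
      have hxy : x ≠ y := fun h => hxu (h ▸ (mem_erase.1 hy1.2).2)
      exact hFG (unique_of_linear hlin (hSH F hF'.1) (hSH G hG'.1) hF'.2.1 hG'.2.1 hy1.1 hy2.1 hxy)
    calc (P x).card = ∑ F ∈ P x, 1 := by simp
      _ ≤ ∑ F ∈ P x, (F ∩ u.erase x₀).card := by
          refine sum_le_sum fun F hF => ?_
          obtain ⟨hFS, hxF, hFu⟩ := mem_filter.1 hF
          have hFu' : ¬ Disjoint F u := by
            rcases hFu with rfl | h
            · exact absurd hxF hxu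
            · exact h
          obtain ⟨y, hyF, hyu⟩ := not_disjoint_iff.1 hFu'
          have hyx : y ≠ x₀ := by
            rintro rfl
            exact hSv F hFS (unique_of_linear hlin (hSH F hFS) hv hxF hx hyF hx₀v hxx)
          exact card_pos.2 ⟨y, mem_inter.2 ⟨hyF, mem_erase.2 ⟨hyx, hyu⟩⟩⟩
      _ = ((P x).biUnion fun F => F ∩ u.erase x₀).card := (card_biUnion hd).symm
      _ ≤ (u.erase x₀).card := card_le_card (biUnion_subset.2 fun F _ => inter_subset_right)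
      _ = a := by rw [card_erase_of_mem hx₀u, ha]; rfl
  have ha0 : 0 < a := by omega
  have hm : a * (D' / a) ≤ D' := Nat.mul_div_le D' a
  have hPm : ∀ x ∈ v, (P x).card ≤ D' / a := fun x hx =>
    (Nat.le_div_iff_mul_le ha0).2 (hPcard x hx)
  have hp : ∑ x ∈ v, (P x).card ≤ D' / a + b * min a (D' / a) := by
    rw [← add_sum_erase v (fun x => (P x).card) hx₀v]
    refine add_le_add (hPm x₀ hx₀v) ?_
    calc ∑ x ∈ v.erase x₀, (P x).card ≤ ∑ x ∈ v.erase x₀, min a (D' / a) := by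
          refine sum_le_sum fun x hx => ?_
          obtain ⟨h4, h5⟩ := mem_erase.1 hx
          exact le_min (hother x h5 h4) (hPm x h5)
      _ = b * min a (D' / a) := by
          rw [sum_const, smul_eq_mul, card_erase_of_mem hx₀v, hb]
          rfl
  have hfin := hnum a b D' (D' / a) _ ha2 hb2 hD' hm hp
  refine ⟨u, hu, ?_⟩
  have h4 := sum_le_sum hone
  rw [sum_add_distrib, sum_add_distrib, sum_const, nsmul_eq_mul, ← mul_sum, hb] at h4
  have h5 : 2 * (D : ℝ) * gw ε v = D * ((b : ℝ) + 2 - 2 * ε b) := by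
    unfold gw
    rw [hb]
    have : b + 1 - 1 = b := rfl
    rw [this]
    push_cast
    ring
  rw [h5]
  push_cast at h4 hfin
  linarith

end Pool.Agent.Furedi2
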