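import Mathlib
import Pool.Agent.Furedi.Final
import Pool.Agent.Furedi2.Local

set_option autoImplicit false

namespace Pool.Agent.Furedi2

open Finset

variable {V : Type*} [DecidableEq V]

/-- The case of edges with at least three vertices, nonnegative weights. -/
theorem main_ge_three {H : Finset (Finset V)}
    (hlin : ∀ E ∈ H, ∀ F ∈ H, E ≠ F → (E ∩ F).card ≤ 1)
    (h3 : ∀ E ∈ H, 3 ≤ E.card) {D : ℕ}
    (hD : ∀ x, ∑ E ∈ H.filter (fun E => x ∈ E), (E.card - 1) ≤ D)
    (w : Finset V → ℝ) (hw : ∀ E ∈ H, 0 ≤ w E) :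
    ∃ M ⊆ H, Furedi.IsMatching M ∧ ∑ E ∈ H, w E ≤ ((D : ℝ) + 1) * ∑ E ∈ M, w E := by
  classical
  obtain ⟨ε, hε0, hε1, hmono, hnum⟩ := exists_eps D
  have hgpos : ∀ E ∈ H, 0 < gw ε E := by
    intro E hE
    have h4 : (3 : ℝ) ≤ E.card := by exact_mod_cast h3 E hE
    have h5 := hε1 (E.card - 1)
    unfold gw
    linarith
  have hloc := local_ineq hlin h3 hD hε0 hmono hε1 hnum
  obtain ⟨M, hMH, hMi, hM⟩ := potential (adj := fun E F : Finset V => ¬ Disjoint E F)
    (fun _ _ h h' => h h'.symm) H (g := gw ε) hgpos (K := (D : ℝ)) (Nat.cast_nonneg D)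
    (by convert hloc) w hw
  exact ⟨M, hMH, fun E hE F hF hEF => not_not.1 (hMi E hE F hF hEF), hM⟩

/-- The case of edges with at least three vertices, real weights. -/
theorem main_ge_three_real {H : Finset (Finset V)}
    (hlin : ∀ E ∈ H, ∀ F ∈ H, E ≠ F → (E ∩ F).card ≤ 1)
    (h3 : ∀ E ∈ H, 3 ≤ E.card) {D : ℕ}
    (hD : ∀ x, ∑ E ∈ H.filter (fun E => x ∈ E), (E.card - 1) ≤ D)
    (w : Finset V → ℝ) :
    ∃ M ⊆ H, Furedi.IsMatching M ∧ ∑ E ∈ H, w E ≤ ((D : ℝ) + 1) * ∑ E ∈ M, w E := by
  classical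
  have hsub : H.filter (fun E => 0 ≤ w E) ⊆ H := filter_subset _ _
  obtain ⟨M, hMH, hMm, hM⟩ := main_ge_three (H := H.filter fun E => 0 ≤ w E) (D := D)
    (fun E hE F hF => hlin E (hsub hE) F (hsub hF)) (fun E hE => h3 E (hsub hE))
    (fun x => le_trans (sum_le_sum_of_subset (filter_subset_filter _ hsub)) (hD x)) w
    (fun E hE => (mem_filter.1 hE).2)
  refine ⟨M, hMH.trans hsub, hMm, le_trans ?_ hM⟩
  rw [sum_filter]
  refine sum_le_sum fun E _ => ?_
  split_ifs with h
  · exact le_rfl
  · exact (not_le.1 h).le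

theorem furedi_no_two [Fintype V] (H : Finset (Finset V)) (w : Finset V → ℝ) (D : ℕ)
    (hlin : ∀ E ∈ H, ∀ F ∈ H, E ≠ F → (E ∩ F).card ≤ 1)
    (hw : ∀ E ∈ H, 0 ≤ w E)
    (hD : ∀ v : V, {u : V | u ≠ v ∧ ∃ E ∈ H, u ∈ E ∧ v ∈ E}.ncard ≤ D)
    (hcond : ∀ E ∈ H, E.card ≠ 2) :
    ∃ M : Finset (Finset V), M ⊆ H ∧
      (∀ E ∈ M, ∀ F ∈ M, E ≠ F → Disjoint E F) ∧
      (∑ E ∈ H, w E) / ((D : ℝ) + 1) ≤ ∑ E ∈ M, w E := by
  classical
  set H2 := H.filter fun E => 3 ≤ E.card with hH2
  set Hs := H.filter fun E => ¬ 3 ≤ E.card with hHs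
  have hHs1 : ∀ E ∈ Hs, E.card ≤ 1 := by
    intro E hE
    have h1 := (mem_filter.1 hE).2
    have h2 := hcond E (mem_filter.1 hE).1
    omega
  have hsub2 : H2 ⊆ H := filter_subset _ _
  set w' : Finset V → ℝ := fun F => w F - ∑ E ∈ Hs.filter (fun E => ¬ Disjoint F E), w E with hw'
  have hdeg : ∀ v : V, ∑ E ∈ H.filter (fun E => v ∈ E), (E.card - 1) ≤ D :=
    fun v => Furedi.deg_le hlin (hD v)
  -- the best matching
  obtain ⟨M, hMsub, hMm, hmain⟩ := main_ge_three_real (H := H2) (D := D)
    (fun E hE F hF => hlin E (hsub2 hE) F (hsub2 hF)) (fun E hE => (mem_filter.1 hE).2)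
    (fun x => le_trans (sum_le_sum_of_subset (filter_subset_filter _ hsub2)) (hdeg x)) w'
  -- add the small edges
  set T := Hs.filter fun E => ∀ F ∈ M, Disjoint F E with hT
  have hTs : T ⊆ Hs := filter_subset _ _
  have hMT : Disjoint M T := by
    rw [disjoint_left]
    intro E hE hE'
    exact (mem_filter.1 (hTs hE')).2 (mem_filter.1 (hMsub hE)).2
  refine ⟨M ∪ T, union_subset (hMsub.trans hsub2) (hTs.trans (filter_subset _ _)), ?_, ?_⟩
  · intro E hE F hF hEF
    rw [mem_union] at hE hF
    rcases hE with hE | hE <;> rcases hF with hF | hF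
    · exact hMm E hE F hF hEF
    · exact (mem_filter.1 hF).2 E hE
    · exact ((mem_filter.1 hE).2 F hF).symm
    · have h3 := hHs1 E (hTs hE)
      have h4 := hHs1 F (hTs hF)
      by_contra hnd
      rw [not_disjoint_iff] at hnd
      obtain ⟨x, hx1, hx2⟩ := hnd
      apply hEF
      have h5 : E = {x} := (eq_of_subset_of_card_le (singleton_subset_iff.2 hx1)
        (by rw [card_singleton]; omega)).symm
      have h6 : F = {x} := (eq_of_subset_of_card_le (singleton_subset_iff.2 hx2)
        (by rw [card_singleton]; omega)).symm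
      rw [h5, h6]
  · -- the weight of `M ∪ T`
    have hcount : ∀ E ∈ Hs, (if ∀ F ∈ M, Disjoint F E then (1 : ℝ) else 0) =
        1 - ((M.filter fun F => ¬ Disjoint F E).card : ℝ) := by
      intro E hE
      have h3 := Furedi.card_blk_le hMm E
      have h4 := hHs1 E hE
      split_ifs with h
      · have : (M.filter fun F => ¬ Disjoint F E) = ∅ :=
          filter_eq_empty_iff.2 fun F hF h' => h' (h F hF)
        rw [this]
        simp
      · have h5 : (M.filter fun F => ¬ Disjoint F E).card = 1 := by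
          have h6 : 0 < (M.filter fun F => ¬ Disjoint F E).card := by
            push Not at h
            obtain ⟨F, hF, hFE⟩ := h
            exact card_pos.2 ⟨F, mem_filter.2 ⟨hF, hFE⟩⟩
          unfold Furedi.blk at h3
          omega
        rw [h5]
        simp
    have hT' : ∑ E ∈ T, w E = ∑ E ∈ Hs, w E -
        ∑ F ∈ M, ∑ E ∈ Hs.filter (fun E => ¬ Disjoint F E), w E := by
      have h3 : ∑ F ∈ M, ∑ E ∈ Hs.filter (fun E => ¬ Disjoint F E), w E =
          ∑ E ∈ Hs, ((M.filter fun F => ¬ Disjoint F E).card : ℝ) * w E := by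
        rw [sum_comm' (t' := Hs) (s' := fun E => M.filter fun F => ¬ Disjoint F E)]
        · refine sum_congr rfl fun E _ => ?_
          rw [sum_const, nsmul_eq_mul]
        · intro F E
          simp only [mem_filter]
          tauto
      rw [h3, ← sum_sub_distrib, hT, sum_filter]
      refine sum_congr rfl fun E hE => ?_
      have h4 := hcount E hE
      split_ifs at h4 ⊢ with h
      · have h5 : ((M.filter fun F => ¬ Disjoint F E).card : ℝ) = 0 := by linarith
        rw [h5]; ring
      · have h5 : ((M.filter fun F => ¬ Disjoint F E).card : ℝ) = 1 := by linarith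
        rw [h5]; ring
    have hsumM : ∑ E ∈ M ∪ T, w E = ∑ E ∈ M, w' E + ∑ E ∈ Hs, w E := by
      rw [sum_union hMT, hT']
      simp only [hw', sum_sub_distrib]
      ring
    have hH2' : ∑ E ∈ H2, w E - (D : ℝ) * ∑ E ∈ Hs, w E ≤ ∑ E ∈ H2, w' E := by
      simp only [hw', sum_sub_distrib]
      have h3 : ∑ F ∈ H2, ∑ E ∈ Hs.filter (fun E => ¬ Disjoint F E), w E =
          ∑ E ∈ Hs, ((H2.filter fun F => ¬ Disjoint F E).card : ℝ) * w E := by
        rw [sum_comm' (t' := Hs) (s' := fun E => H2.filter fun F => ¬ Disjoint F E)]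
        · refine sum_congr rfl fun E _ => ?_
          rw [sum_const, nsmul_eq_mul]
        · intro F E
          simp only [mem_filter]
          tauto
      have h4 : ∀ E ∈ Hs, ((H2.filter fun F => ¬ Disjoint F E).card : ℝ) * w E ≤ D * w E := by
        intro E hE
        refine mul_le_mul_of_nonneg_right ?_ (hw E (mem_filter.1 hE).1)
        have h5 : (H2.filter fun F => ¬ Disjoint F E).card ≤ D := by
          by_cases hemp : (H2.filter fun F => ¬ Disjoint F E) = ∅
          · rw [hemp]; simp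
          · obtain ⟨F, hF⟩ := nonempty_iff_ne_empty.2 hemp
            have hFd := (mem_filter.1 hF).2
            rw [not_disjoint_iff] at hFd
            obtain ⟨x, hxF, hxE⟩ := hFd
            have h6 := hHs1 E hE
            have h7 : E = {x} := (eq_of_subset_of_card_le (singleton_subset_iff.2 hxE)
              (by rw [card_singleton]; omega)).symm
            calc (H2.filter fun F => ¬ Disjoint F E).card
                = ∑ F ∈ H2.filter (fun F => ¬ Disjoint F E), 1 := by simp
              _ ≤ ∑ F ∈ H2.filter (fun F => ¬ Disjoint F E), (F.card - 1) := by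
                  refine sum_le_sum fun F hF => ?_
                  have := (mem_filter.1 (mem_filter.1 hF).1).2
                  omega
              _ ≤ ∑ F ∈ H.filter (fun F => x ∈ F), (F.card - 1) := by
                  refine sum_le_sum_of_subset ?_
                  intro F hF
                  obtain ⟨hF1, hF2⟩ := mem_filter.1 hF
                  rw [h7, disjoint_singleton_right, not_not] at hF2
                  exact mem_filter.2 ⟨hsub2 hF1, hF2⟩
              _ ≤ D := hdeg x
        exact_mod_cast h5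
      have h5 := sum_le_sum h4
      rw [← mul_sum] at h5
      rw [h3]
      linarith
    have hsplit : ∑ E ∈ H, w E = ∑ E ∈ H2, w E + ∑ E ∈ Hs, w E :=
      (sum_filter_add_sum_filter_not H (fun E => 3 ≤ E.card) w).symm
    rw [hsumM, div_le_iff₀ (by positivity), hsplit]
    nlinarith

end Pool.Agent.Furedi2
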