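import Mathlib
import Pool.Agent.Furedi2.Final
import Pool.Agent.Furedi2.Pack

set_option autoImplicit false

namespace Pool.Agent.Furedi2

open Finset

variable {V : Type*} [DecidableEq V]

/-- The combination of the theorem for edges of size at least three with the packing lemma for the
edges of size two. -/
theorem ext_core [Fintype V] {H : Finset (Finset V)}
    (hlin : ∀ E ∈ H, ∀ F ∈ H, E ≠ F → (E ∩ F).card ≤ 1) {D : ℕ}
    (hD : ∀ x, ∑ E ∈ H.filter (fun E => x ∈ E), (E.card - 1) ≤ D)
    (N : ℝ) (hN : (D : ℝ) + 1 ≤ N) (f : Finset V → ℝ) (hf0 : ∀ e, 0 ≤ f e)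
    (hdeg : ∀ x, ∑ e ∈ (H.filter fun e => e.card = 2).filter (fun e => x ∈ e), f e ≤ 1)
    (hodd : ∀ K : Finset V, K.Nonempty →
      ∑ e ∈ (H.filter fun e => e.card = 2).filter (fun e => e ⊆ K), f e ≤ ((K.card : ℝ) - 1) / 2)
    (hf : ∀ e ∈ H, e.card = 2 →
      1 ≤ f e * (N - (((H.filter fun F => 3 ≤ F.card).filter fun F => ¬ Disjoint F e).card : ℝ)))
    (w : Finset V → ℝ) :
    ∃ M ⊆ H.filter (fun E => 2 ≤ E.card), Furedi.IsMatching M ∧
      ∑ E ∈ H.filter (fun E => 2 ≤ E.card), w E ≤ N * ∑ E ∈ M, w E := by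
  classical
  set G := (H.filter fun e => e.card = 2).filter (fun e => 0 ≤ w e) with hG
  set H3 := H.filter (fun E => 3 ≤ E.card) with hH3
  have hH3H : H3 ⊆ H := filter_subset _ _
  have hGH2 : G ⊆ H.filter fun e => e.card = 2 := filter_subset _ _
  set w' : Finset V → ℝ := fun F => w F - ∑ e ∈ G.filter (fun e => ¬ Disjoint F e), f e * w e
    with hw'
  have hD0 : (0 : ℝ) ≤ D := Nat.cast_nonneg D
  have hN0 : 0 < N := by linarith
  have hfw : ∀ e ∈ G, 0 ≤ f e * w e := fun e he => mul_nonneg (hf0 e) (mem_filter.1 he).2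
  -- the matching of big edges
  obtain ⟨B, hBH, hBm, hB⟩ : ∃ B ⊆ H3, Furedi.IsMatching B ∧
      ∑ E ∈ H3, w' E ≤ N * ∑ E ∈ B, w' E := by
    obtain ⟨B, hB1, hB2, hB3⟩ := main_ge_three_real (H := H3) (D := D)
      (fun E hE F hF => hlin E (hH3H hE) F (hH3H hF)) (fun E hE => (mem_filter.1 hE).2)
      (fun x => le_trans (sum_le_sum_of_subset (filter_subset_filter _ hH3H)) (hD x)) w'
    by_cases hs : 0 ≤ ∑ E ∈ B, w' E
    · exact ⟨B, hB1, hB2, hB3.trans (mul_le_mul_of_nonneg_right hN hs)⟩
    · push Not at hs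
      refine ⟨∅, empty_subset _, isMatching_empty, ?_⟩
      rw [sum_empty, mul_zero]
      refine hB3.trans ?_
      nlinarith
  set G' := G.filter (fun e => ∀ F ∈ B, Disjoint F e) with hG'
  have hG'G : G' ⊆ G := filter_subset _ _
  have hG'2 : G' ⊆ H.filter fun e => e.card = 2 := hG'G.trans hGH2
  obtain ⟨M2, hM2G, hM2m, hM2⟩ := real_pack (G := G')
    (fun e he => (mem_filter.1 (hG'2 he)).2) f hf0
    (fun x => le_trans (sum_le_sum_of_subset_of_nonneg (filter_subset_filter _ hG'2)
      (fun e _ _ => hf0 e)) (hdeg x))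
    (fun K hK => le_trans (sum_le_sum_of_subset_of_nonneg (filter_subset_filter _ hG'2)
      (fun e _ _ => hf0 e)) (hodd K hK))
    w (fun e he => (mem_filter.1 (hG'G he)).2)
  have hBM2 : Disjoint B M2 := by
    rw [disjoint_left]
    intro E hE hE'
    have h1 := (mem_filter.1 (hBH hE)).2
    have h2 := (mem_filter.1 (hG'2 (hM2G hE'))).2
    omega
  refine ⟨B ∪ M2, ?_, ?_, ?_⟩
  · intro E hE
    rw [mem_union] at hE
    rcases hE with hE | hE
    · have := mem_filter.1 (hBH hE)
      exact mem_filter.2 ⟨this.1, by omega⟩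
    · have := mem_filter.1 (hG'2 (hM2G hE))
      exact mem_filter.2 ⟨this.1, by omega⟩
  · intro E hE F hF hEF
    rw [mem_union] at hE hF
    rcases hE with hE | hE <;> rcases hF with hF | hF
    · exact hBm E hE F hF hEF
    · exact (mem_filter.1 (hM2G hF)).2 E hE
    · exact ((mem_filter.1 (hM2G hE)).2 F hF).symm
    · exact hM2m E hE F hF hEF
  · -- weights
    have h1 : ∑ e ∈ G, f e * w e -
        ∑ F ∈ B, ∑ e ∈ G.filter (fun e => ¬ Disjoint F e), f e * w e ≤ ∑ e ∈ G', f e * w e := by
      have h2 : ∑ e ∈ G, f e * w e = ∑ e ∈ G', f e * w e +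
          ∑ e ∈ G.filter (fun e => ¬ ∀ F ∈ B, Disjoint F e), f e * w e :=
        (sum_filter_add_sum_filter_not G _ _).symm
      have h3 : ∑ e ∈ G.filter (fun e => ¬ ∀ F ∈ B, Disjoint F e), f e * w e ≤
          ∑ F ∈ B, ∑ e ∈ G.filter (fun e => ¬ Disjoint F e), f e * w e := by
        have h4 : ∑ F ∈ B, ∑ e ∈ G.filter (fun e => ¬ Disjoint F e), f e * w e =
            ∑ e ∈ G, ((B.filter fun F => ¬ Disjoint F e).card : ℝ) * (f e * w e) := by
          rw [sum_comm' (t' := G) (s' := fun e => B.filter fun F => ¬ Disjoint F e)]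
          · refine sum_congr rfl fun E _ => ?_
            rw [sum_const, nsmul_eq_mul]
          · intro F E
            simp only [mem_filter]
            tauto
        rw [h4, sum_filter]
        refine sum_le_sum fun e he => ?_
        have h5 := hfw e he
        by_cases h : ∀ F ∈ B, Disjoint F e
        · rw [if_neg (not_not.2 h)]
          exact mul_nonneg (Nat.cast_nonneg _) h5
        · rw [if_pos h]
          push Not at h
          obtain ⟨F, hF, hFe⟩ := h
          have h6 : 1 ≤ (B.filter fun F => ¬ Disjoint F e).card :=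
            card_pos.2 ⟨F, mem_filter.2 ⟨hF, hFe⟩⟩
          have h7 : (1 : ℝ) ≤ ((B.filter fun F => ¬ Disjoint F e).card : ℝ) := by exact_mod_cast h6
          nlinarith
      linarith
    have h5 : ∑ E ∈ B, w' E = ∑ E ∈ B, w E -
        ∑ F ∈ B, ∑ e ∈ G.filter (fun e => ¬ Disjoint F e), f e * w e := by
      simp only [hw', sum_sub_distrib]
    have h6 : ∑ E ∈ H3, w' E = ∑ E ∈ H3, w E -
        ∑ e ∈ G, ((H3.filter fun F => ¬ Disjoint F e).card : ℝ) * (f e * w e) := by
      simp only [hw', sum_sub_distrib]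
      congr 1
      rw [sum_comm' (t' := G) (s' := fun e => H3.filter fun F => ¬ Disjoint F e)]
      · refine sum_congr rfl fun E _ => ?_
        rw [sum_const, nsmul_eq_mul]
      · intro F E
        simp only [mem_filter]
        tauto
    have h7 : ∑ e ∈ G, w e ≤ N * ∑ e ∈ G, f e * w e -
        ∑ e ∈ G, ((H3.filter fun F => ¬ Disjoint F e).card : ℝ) * (f e * w e) := by
      rw [mul_sum, ← sum_sub_distrib]
      refine sum_le_sum fun e he => ?_
      have he' := mem_filter.1 (hGH2 he)
      have h8 := mul_le_mul_of_nonneg_right (hf e he'.1 he'.2) (mem_filter.1 he).2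
      rw [one_mul] at h8
      refine h8.trans (le_of_eq ?_)
      rw [hH3]
      ring
    have h9 : ∑ E ∈ H.filter (fun E => 2 ≤ E.card), w E ≤ ∑ E ∈ H3, w E + ∑ e ∈ G, w e := by
      have h10 : ∑ E ∈ H.filter (fun E => 2 ≤ E.card), w E =
          ∑ E ∈ H3, w E + ∑ E ∈ H.filter (fun e => e.card = 2), w E := by
        rw [← sum_filter_add_sum_filter_not (H.filter (fun E => 2 ≤ E.card)) (fun E => 3 ≤ E.card) w,
          filter_filter, filter_filter]
        congr 1
        · refine sum_congr (filter_congr fun E _ => ?_) fun _ _ => rfl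
          constructor
          · rintro ⟨_, h⟩; exact h
          · intro h; exact ⟨by omega, h⟩
        · refine sum_congr (filter_congr fun E _ => ?_) fun _ _ => rfl
          constructor
          · rintro ⟨_, h⟩; omega
          · intro h; omega
      rw [h10]
      refine add_le_add le_rfl ?_
      rw [hG, sum_filter (s := H.filter fun e => e.card = 2)]
      refine sum_le_sum fun E _ => ?_
      split_ifs with h
      · exact le_rfl
      · exact (not_le.1 h).le
    rw [sum_union hBM2]
    have h11 : N * (∑ E ∈ B, w' E + ∑ e ∈ G, f e * w e) ≤ N * (∑ E ∈ B, w E + ∑ E ∈ M2, w E) := by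
      refine mul_le_mul_of_nonneg_left ?_ hN0.le
      linarith
    linarith

/-- Edges of size at most one can be added. -/
theorem add_small {H : Finset (Finset V)} (w : Finset V → ℝ) {D : ℕ} (N : ℝ)
    (hN : (D : ℝ) + 1 ≤ N) (hw : ∀ E ∈ H, 0 ≤ w E)
    (hdeg : ∀ x, ∑ E ∈ H.filter (fun E => x ∈ E), (E.card - 1) ≤ D)
    (hmain : ∀ w' : Finset V → ℝ, ∃ M ⊆ H.filter (fun E => 2 ≤ E.card), Furedi.IsMatching M ∧
      ∑ E ∈ H.filter (fun E => 2 ≤ E.card), w' E ≤ N * ∑ E ∈ M, w' E) :
    ∃ M : Finset (Finset V), M ⊆ H ∧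
      (∀ E ∈ M, ∀ F ∈ M, E ≠ F → Disjoint E F) ∧
      (∑ E ∈ H, w E) / N ≤ ∑ E ∈ M, w E := by
  classical
  set H2 := H.filter fun E => 2 ≤ E.card with hH2
  set Hs := H.filter fun E => ¬ 2 ≤ E.card with hHs
  have hHs1 : ∀ E ∈ Hs, E.card ≤ 1 := by
    intro E hE
    have h1 := (mem_filter.1 hE).2
    omega
  have hsub2 : H2 ⊆ H := filter_subset _ _
  have hN0 : 0 < N := by have : (0 : ℝ) ≤ D := Nat.cast_nonneg D; linarith
  set w' : Finset V → ℝ := fun F => w F - ∑ E ∈ Hs.filter (fun E => ¬ Disjoint F E), w E with hw'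
  obtain ⟨M, hMsub, hMm, hmain⟩ := hmain w'
  -- add the small edges
  set T := Hs.filter fun E => ∀ F ∈ M, Disjoint F E with hT
  have hTs : T ⊆ Hs := filter_subset _ _
  have hMT : Disjoint M T := by
    rw [disjoint_left]
    intro E hE hE'
    exact (mem_filter.1 (hTs hE')).2 (mem_filter.1 (hMsub hE)).2
  refine ⟨M ∪ T, union_subset (hMsub.trans hsub2) (hTs.trans (filter_subset _ _)), ?_, ?_⟩
  · intro E hE F hF hEF
    rw [mem_union] at hE hF
    rcases hE with hE | hE <;> rcases hF with hF | hF
    · exact hMm E hE F hF hEF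
    · exact (mem_filter.1 hF).2 E hE
    · exact ((mem_filter.1 hE).2 F hF).symm
    · have h3 := hHs1 E (hTs hE)
      have h4 := hHs1 F (hTs hF)
      by_contra hnd
      rw [not_disjoint_iff] at hnd
      obtain ⟨x, hx1, hx2⟩ := hnd
      apply hEF
      have h5 : E = {x} := (eq_of_subset_of_card_le (singleton_subset_iff.2 hx1)
        (by rw [card_singleton]; omega)).symm
      have h6 : F = {x} := (eq_of_subset_of_card_le (singleton_subset_iff.2 hx2)
        (by rw [card_singleton]; omega)).symm
      rw [h5, h6]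
  · -- the weight of `M ∪ T`
    have hcount : ∀ E ∈ Hs, (if ∀ F ∈ M, Disjoint F E then (1 : ℝ) else 0) =
        1 - ((M.filter fun F => ¬ Disjoint F E).card : ℝ) := by
      intro E hE
      have h3 := Furedi.card_blk_le hMm E
      have h4 := hHs1 E hE
      split_ifs with h
      · have : (M.filter fun F => ¬ Disjoint F E) = ∅ :=
          filter_eq_empty_iff.2 fun F hF h' => h' (h F hF)
        rw [this]
        simp
      · have h5 : (M.filter fun F => ¬ Disjoint F E).card = 1 := by
          have h6 : 0 < (M.filter fun F => ¬ Disjoint F E).card := by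
            push Not at h
            obtain ⟨F, hF, hFE⟩ := h
            exact card_pos.2 ⟨F, mem_filter.2 ⟨hF, hFE⟩⟩
          unfold Furedi.blk at h3
          omega
        rw [h5]
        simp
    have hT' : ∑ E ∈ T, w E = ∑ E ∈ Hs, w E -
        ∑ F ∈ M, ∑ E ∈ Hs.filter (fun E => ¬ Disjoint F E), w E := by
      have h3 : ∑ F ∈ M, ∑ E ∈ Hs.filter (fun E => ¬ Disjoint F E), w E =
          ∑ E ∈ Hs, ((M.filter fun F => ¬ Disjoint F E).card : ℝ) * w E := by
        rw [sum_comm' (t' := Hs) (s' := fun E => M.filter fun F => ¬ Disjoint F E)]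
        · refine sum_congr rfl fun E _ => ?_
          rw [sum_const, nsmul_eq_mul]
        · intro F E
          simp only [mem_filter]
          tauto
      rw [h3, ← sum_sub_distrib, hT, sum_filter]
      refine sum_congr rfl fun E hE => ?_
      have h4 := hcount E hE
      split_ifs at h4 ⊢ with h
      · have h5 : ((M.filter fun F => ¬ Disjoint F E).card : ℝ) = 0 := by linarith
        rw [h5]; ring
      · have h5 : ((M.filter fun F => ¬ Disjoint F E).card : ℝ) = 1 := by linarith
        rw [h5]; ring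
    have hsumM : ∑ E ∈ M ∪ T, w E = ∑ E ∈ M, w' E + ∑ E ∈ Hs, w E := by
      rw [sum_union hMT, hT']
      simp only [hw', sum_sub_distrib]
      ring
    have hH2' : ∑ E ∈ H2, w E - (D : ℝ) * ∑ E ∈ Hs, w E ≤ ∑ E ∈ H2, w' E := by
      simp only [hw', sum_sub_distrib]
      have h3 : ∑ F ∈ H2, ∑ E ∈ Hs.filter (fun E => ¬ Disjoint F E), w E =
          ∑ E ∈ Hs, ((H2.filter fun F => ¬ Disjoint F E).card : ℝ) * w E := by
        rw [sum_comm' (t' := Hs) (s' := fun E => H2.filter fun F => ¬ Disjoint F E)]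
        · refine sum_congr rfl fun E _ => ?_
          rw [sum_const, nsmul_eq_mul]
        · intro F E
          simp only [mem_filter]
          tauto
      have h4 : ∀ E ∈ Hs, ((H2.filter fun F => ¬ Disjoint F E).card : ℝ) * w E ≤ D * w E := by
        intro E hE
        refine mul_le_mul_of_nonneg_right ?_ (hw E (mem_filter.1 hE).1)
        have h5 : (H2.filter fun F => ¬ Disjoint F E).card ≤ D := by
          by_cases hemp : (H2.filter fun F => ¬ Disjoint F E) = ∅
          · rw [hemp]; simp
          · obtain ⟨F, hF⟩ := nonempty_iff_ne_empty.2 hemp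
            have hFd := (mem_filter.1 hF).2
            rw [not_disjoint_iff] at hFd
            obtain ⟨x, hxF, hxE⟩ := hFd
            have h6 := hHs1 E hE
            have h7 : E = {x} := (eq_of_subset_of_card_le (singleton_subset_iff.2 hxE)
              (by rw [card_singleton]; omega)).symm
            calc (H2.filter fun F => ¬ Disjoint F E).card
                = ∑ F ∈ H2.filter (fun F => ¬ Disjoint F E), 1 := by simp
              _ ≤ ∑ F ∈ H2.filter (fun F => ¬ Disjoint F E), (F.card - 1) := by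
                  refine sum_le_sum fun F hF => ?_
                  have := (mem_filter.1 (mem_filter.1 hF).1).2
                  omega
              _ ≤ ∑ F ∈ H.filter (fun F => x ∈ F), (F.card - 1) := by
                  refine sum_le_sum_of_subset ?_
                  intro F hF
                  obtain ⟨hF1, hF2⟩ := mem_filter.1 hF
                  rw [h7, disjoint_singleton_right, not_not] at hF2
                  exact mem_filter.2 ⟨hsub2 hF1, hF2⟩
              _ ≤ D := hdeg x
        exact_mod_cast h5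
      have h5 := sum_le_sum h4
      rw [← mul_sum] at h5
      rw [h3]
      linarith
    have hsplit : ∑ E ∈ H, w E = ∑ E ∈ H2, w E + ∑ E ∈ Hs, w E :=
      (sum_filter_add_sum_filter_not H (fun E => 2 ≤ E.card) w).symm
    have hHs0 : 0 ≤ ∑ E ∈ Hs, w E := sum_nonneg fun E hE => hw E (mem_filter.1 hE).1
    rw [hsumM, div_le_iff₀ hN0, hsplit]
    nlinarith

end Pool.Agent.Furedi2
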