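import Mathlib
import Pool.Agent.Furedi2.Ext

set_option autoImplicit false

namespace Pool.Agent.Furedi2

open Finset

variable {V : Type*} [DecidableEq V]

/-- The number of edges of size at least three at `x`. -/
def bd (H : Finset (Finset V)) (x : V) : ℕ := (H.filter fun E => x ∈ E ∧ 3 ≤ E.card).card

/-- The 2-edges at `x`. -/
def st (H : Finset (Finset V)) (x : V) : Finset (Finset V) :=
  (H.filter fun e => e.card = 2).filter fun e => x ∈ e

lemma deg_split {H : Finset (Finset V)} {D : ℕ}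
    (hD : ∀ x, ∑ E ∈ H.filter (fun E => x ∈ E), (E.card - 1) ≤ D) (x : V) :
    2 * bd H x + (st H x).card ≤ D := by
  classical
  have hdis : Disjoint (H.filter fun E => x ∈ E ∧ 3 ≤ E.card) (st H x) := by
    rw [disjoint_left]
    intro E hE hE'
    have h1 := (mem_filter.1 hE).2.2
    have h2 := (mem_filter.1 (mem_filter.1 hE').1).2
    omega
  have hsub : (H.filter fun E => x ∈ E ∧ 3 ≤ E.card) ∪ st H x ⊆ H.filter fun E => x ∈ E := by
    intro E hE
    rw [mem_union] at hE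
    rcases hE with hE | hE
    · exact mem_filter.2 ⟨(mem_filter.1 hE).1, (mem_filter.1 hE).2.1⟩
    · exact mem_filter.2 ⟨(mem_filter.1 (mem_filter.1 hE).1).1, (mem_filter.1 hE).2⟩
  have h1 := (sum_le_sum_of_subset (f := fun E : Finset V => E.card - 1) hsub).trans (hD x)
  rw [sum_union hdis] at h1
  have h2 : (H.filter fun E => x ∈ E ∧ 3 ≤ E.card).card * 2 ≤
      ∑ E ∈ H.filter (fun E => x ∈ E ∧ 3 ≤ E.card), (E.card - 1) := by
    rw [← smul_eq_mul, ← sum_const]
    refine sum_le_sum fun E hE => ?_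
    have := (mem_filter.1 hE).2.2
    omega
  have h3 : (st H x).card ≤ ∑ E ∈ st H x, (E.card - 1) := by
    rw [card_eq_sum_ones]
    refine sum_le_sum fun E hE => ?_
    have := (mem_filter.1 (mem_filter.1 hE).1).2
    omega
  unfold bd
  omega

lemma card_meet_le (H : Finset (Finset V)) (e : Finset V) :
    ((H.filter fun F => 3 ≤ F.card).filter fun F => ¬ Disjoint F e).card ≤
      ∑ z ∈ e, bd H z := by
  classical
  have h1 : (H.filter fun F => 3 ≤ F.card).filter (fun F => ¬ Disjoint F e) ⊆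
      e.biUnion fun z => H.filter fun E => z ∈ E ∧ 3 ≤ E.card := by
    intro F hF
    obtain ⟨hF1, hF2⟩ := mem_filter.1 hF
    rw [not_disjoint_iff] at hF2
    obtain ⟨z, hz1, hz2⟩ := hF2
    exact mem_biUnion.2 ⟨z, hz2, mem_filter.2 ⟨(mem_filter.1 hF1).1, hz1, (mem_filter.1 hF1).2⟩⟩
  exact (card_le_card h1).trans card_biUnion_le

/-- in a family of 2-sets inside `K` containing `z` there are at most `|K| - 1` members -/
lemma card_star_le (H : Finset (Finset V)) {K : Finset V} {z : V} (hz : z ∈ K) :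
    ((H.filter fun e => e.card = 2).filter fun e => e ⊆ K ∧ z ∈ e).card + 1 ≤ K.card := by
  classical
  have h1 : ((H.filter fun e => e.card = 2).filter fun e => e ⊆ K ∧ z ∈ e).card ≤
      ((K.erase z).powersetCard 1).card := by
    refine card_le_card_of_injOn (fun e => e.erase z) ?_ ?_
    · intro e he
      rw [mem_coe] at he
      obtain ⟨he1, he2, he3⟩ := mem_filter.1 he
      have he4 := (mem_filter.1 he1).2
      rw [mem_coe, mem_powersetCard]
      refine ⟨erase_subset_erase z he2, ?_⟩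
      rw [card_erase_of_mem he3, he4]
    · intro e he e' he' hee
      rw [mem_coe] at he he'
      have h3 := (mem_filter.1 he).2.2
      have h4 := (mem_filter.1 he').2.2
      simp only at hee
      rw [← insert_erase h3, hee, insert_erase h4]
  rw [card_powersetCard, card_erase_of_mem hz, Nat.choose_one_right] at h1
  have : 0 < K.card := card_pos.2 ⟨z, hz⟩
  omega

/-- The extension theorem in its general form: the vector `1 / (N - b(x) - b(y))` on the 2-edges
satisfies the degree constraints. -/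
theorem ext_general [Fintype V] {H : Finset (Finset V)}
    (hlin : ∀ E ∈ H, ∀ F ∈ H, E ≠ F → (E ∩ F).card ≤ 1) {D : ℕ}
    (hD : ∀ x, ∑ E ∈ H.filter (fun E => x ∈ E), (E.card - 1) ≤ D)
    (N : ℝ) (hN : (D : ℝ) + 1 ≤ N)
    (hdeg : ∀ x, ∑ e ∈ st H x, (N - ∑ z ∈ e, (bd H z : ℝ))⁻¹ ≤ 1)
    (w : Finset V → ℝ) :
    ∃ M ⊆ H.filter (fun E => 2 ≤ E.card), Furedi.IsMatching M ∧
      ∑ E ∈ H.filter (fun E => 2 ≤ E.card), w E ≤ N * ∑ E ∈ M, w E := by
  classical
  have ha : ∀ x, (st H x).card + 1 ≤ N - 2 * (bd H x : ℝ) := by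
    intro x
    have h1 := deg_split hD x
    have h2 : (2 * (bd H x : ℝ) + (st H x).card) ≤ D := by exact_mod_cast h1
    linarith
  have hapos : ∀ x, 0 < N - 2 * (bd H x : ℝ) := by
    intro x
    have h1 := ha x
    have h2 : (0 : ℝ) ≤ (st H x).card := Nat.cast_nonneg _
    linarith
  have hsum : ∀ e ∈ H.filter (fun e => e.card = 2),
      N - ∑ z ∈ e, (bd H z : ℝ) = (∑ z ∈ e, (N - 2 * (bd H z : ℝ))) / 2 := by
    intro e he
    have h1 := (mem_filter.1 he).2
    rw [sum_sub_distrib, sum_const, h1, ← mul_sum]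
    simp only [nsmul_eq_mul]
    push_cast
    ring
  have hpos : ∀ e ∈ H.filter (fun e => e.card = 2), 0 < N - ∑ z ∈ e, (bd H z : ℝ) := by
    intro e he
    rw [hsum e he]
    have h1 := (mem_filter.1 he).2
    have h2 : e.Nonempty := card_pos.1 (by omega)
    have h3 := sum_pos (fun z _ => hapos z) h2
    linarith
  set f : Finset V → ℝ := fun e => |N - ∑ z ∈ e, (bd H z : ℝ)|⁻¹ with hf
  have hfe : ∀ e ∈ H.filter (fun e => e.card = 2), f e = (N - ∑ z ∈ e, (bd H z : ℝ))⁻¹ := by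
    intro e he
    rw [hf]
    simp only
    rw [abs_of_pos (hpos e he)]
  refine ext_core hlin hD N hN f (fun e => by rw [hf]; positivity) ?_ ?_ ?_ w
  · -- degrees
    intro x
    refine le_trans (le_of_eq ?_) (hdeg x)
    unfold st
    exact sum_congr rfl fun e he => hfe e (mem_filter.1 he).1
  · -- odd sets
    intro K hK
    have hKc : (0 : ℝ) < K.card := by exact_mod_cast hK.card_pos
    set GK := (H.filter fun e => e.card = 2).filter fun e => e ⊆ K with hGK
    have h1 : ∀ e ∈ GK, f e ≤ ∑ z ∈ e, (N - 2 * (bd H z : ℝ))⁻¹ / 2 := by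
      intro e he
      have he' := (mem_filter.1 he).1
      rw [hfe e he', hsum e he']
      obtain ⟨x, y, hxy, rfl⟩ := card_eq_two.1 (mem_filter.1 he').2
      rw [sum_pair hxy, sum_pair hxy]
      have hx := hapos x
      have hy := hapos y
      set p := N - 2 * (bd H x : ℝ)
      set q := N - 2 * (bd H y : ℝ)
      rw [← add_div, inv_div, div_le_div_iff₀ (by linarith) (by norm_num)]
      have h4 : p⁻¹ + q⁻¹ = (p + q) / (p * q) := by field_simp; ring
      rw [h4, div_mul_eq_mul_div, le_div_iff₀ (by positivity)]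
      nlinarith [sq_nonneg (p - q)]
    have h2 : ∑ e ∈ GK, ∑ z ∈ e, (N - 2 * (bd H z : ℝ))⁻¹ / 2 =
        ∑ z ∈ K, ∑ e ∈ GK.filter (fun e => z ∈ e), (N - 2 * (bd H z : ℝ))⁻¹ / 2 := by
      refine sum_comm' fun e z => ?_
      simp only [hGK, mem_filter]
      constructor
      · rintro ⟨⟨h3, h4⟩, h5⟩
        exact ⟨⟨⟨h3, h4⟩, h5⟩, h4 h5⟩
      · rintro ⟨⟨h3, h5⟩, _⟩
        exact ⟨h3, h5⟩
    have h3 : ∀ z ∈ K, ∑ e ∈ GK.filter (fun e => z ∈ e), (N - 2 * (bd H z : ℝ))⁻¹ / 2 ≤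
        ((K.card : ℝ) - 1) / K.card / 2 := by
      intro z hz
      rw [sum_const, nsmul_eq_mul, ← mul_div_assoc]
      refine div_le_div_of_nonneg_right ?_ (by norm_num)
      have h4 : (GK.filter (fun e => z ∈ e)).card + 1 ≤ K.card := by
        have := card_star_le H hz
        rwa [hGK, filter_filter]
      have h5 : (GK.filter (fun e => z ∈ e)).card ≤ (st H z).card := by
        refine card_le_card ?_
        intro e he
        obtain ⟨he1, he2⟩ := mem_filter.1 he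
        exact mem_filter.2 ⟨(mem_filter.1 he1).1, he2⟩
      have h4' : ((GK.filter (fun e => z ∈ e)).card : ℝ) + 1 ≤ K.card := by exact_mod_cast h4
      have h5' : ((GK.filter (fun e => z ∈ e)).card : ℝ) ≤ (st H z).card := by exact_mod_cast h5
      have h6 := ha z
      have h7 := hapos z
      set d : ℝ := ((GK.filter (fun e => z ∈ e)).card : ℝ)
      have h8 : 0 ≤ d := Nat.cast_nonneg _
      rw [← div_eq_mul_inv, div_le_div_iff₀ h7 hKc]
      have h9 : d + 1 ≤ N - 2 * (bd H z : ℝ) := by linarith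
      have h10 : (0 : ℝ) ≤ (K.card : ℝ) - 1 := by linarith
      nlinarith [mul_le_mul_of_nonneg_left h9 h10]
    calc ∑ e ∈ GK, f e ≤ ∑ e ∈ GK, ∑ z ∈ e, (N - 2 * (bd H z : ℝ))⁻¹ / 2 := sum_le_sum h1
      _ = ∑ z ∈ K, ∑ e ∈ GK.filter (fun e => z ∈ e), (N - 2 * (bd H z : ℝ))⁻¹ / 2 := h2
      _ ≤ ∑ z ∈ K, ((K.card : ℝ) - 1) / K.card / 2 := sum_le_sum h3
      _ = ((K.card : ℝ) - 1) / 2 := by
          rw [sum_const, nsmul_eq_mul]
          field_simp
  · -- the weights are at least one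
    intro e he he2
    have he' : e ∈ H.filter (fun e => e.card = 2) := mem_filter.2 ⟨he, he2⟩
    have h1 := hpos e he'
    rw [hfe e he']
    have h2 : (((H.filter fun F => 3 ≤ F.card).filter fun F => ¬ Disjoint F e).card : ℝ) ≤
        ∑ z ∈ e, (bd H z : ℝ) := by
      have := card_meet_le H e
      exact_mod_cast this
    rw [inv_mul_eq_div, le_div_iff₀ h1]
    linarith

/-- The condition on the degrees holds when, for every 2-edge `xy`, the number of edges at `x` plus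
the number of edges of size at least three at `y` is at most `N`. -/
theorem ext_cond [Fintype V] {H : Finset (Finset V)}
    (hlin : ∀ E ∈ H, ∀ F ∈ H, E ≠ F → (E ∩ F).card ≤ 1) {D : ℕ}
    (hD : ∀ x, ∑ E ∈ H.filter (fun E => x ∈ E), (E.card - 1) ≤ D) (N : ℕ) (hN : D + 1 ≤ N)
    (hc : ∀ x y, x ≠ y → {x, y} ∈ H →
      (H.filter fun E => x ∈ E ∧ 2 ≤ E.card).card +
        (H.filter fun E => y ∈ E ∧ 3 ≤ E.card).card ≤ N)
    (w : Finset V → ℝ) :
    ∃ M ⊆ H.filter (fun E => 2 ≤ E.card), Furedi.IsMatching M ∧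
      ∑ E ∈ H.filter (fun E => 2 ≤ E.card), w E ≤ (N : ℝ) * ∑ E ∈ M, w E := by
  classical
  refine ext_general hlin hD _ (by exact_mod_cast hN) ?_ w
  intro x
  by_cases hx : (st H x).card = 0
  · rw [card_eq_zero.1 hx]
    simp
  have hx1 : (0 : ℝ) < (st H x).card := by exact_mod_cast Nat.pos_of_ne_zero hx
  have h0 : (st H x).card + bd H x ≤ (H.filter fun E => x ∈ E ∧ 2 ≤ E.card).card := by
    have hdis : Disjoint (st H x) (H.filter fun E => x ∈ E ∧ 3 ≤ E.card) := by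
      rw [disjoint_left]
      intro E hE' hE
      have h1 := (mem_filter.1 hE).2.2
      have h2 := (mem_filter.1 (mem_filter.1 hE').1).2
      omega
    unfold bd
    rw [← card_union_of_disjoint hdis]
    refine card_le_card ?_
    intro E hE
    rw [mem_union] at hE
    rcases hE with hE | hE
    · have h1 := mem_filter.1 hE
      have h2 := mem_filter.1 h1.1
      exact mem_filter.2 ⟨h2.1, h1.2, by omega⟩
    · have h1 := mem_filter.1 hE
      exact mem_filter.2 ⟨h1.1, h1.2.1, by omega⟩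
  have h1 : ∀ e ∈ st H x, ((N : ℝ) - ∑ z ∈ e, (bd H z : ℝ))⁻¹ ≤ ((st H x).card : ℝ)⁻¹ := by
    intro e he
    obtain ⟨he1, hxe⟩ := mem_filter.1 he
    obtain ⟨heH, he2⟩ := mem_filter.1 he1
    refine inv_anti₀ hx1 ?_
    obtain ⟨y, hexy, hxy⟩ : ∃ y, e = {x, y} ∧ x ≠ y := by
      obtain ⟨a, b, hab, rfl⟩ := card_eq_two.1 he2
      rw [mem_insert, mem_singleton] at hxe
      rcases hxe with rfl | rfl
      · exact ⟨b, rfl, hab⟩
      · exact ⟨a, by rw [pair_comm], hab.symm⟩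
    have h2 := hc x y hxy (hexy ▸ heH)
    rw [hexy, sum_pair hxy]
    have h3 : (st H x).card + bd H x + bd H y ≤ N := by
      refine le_trans ?_ h2
      unfold bd at h0 ⊢
      omega
    have h3' : ((st H x).card : ℝ) + bd H x + bd H y ≤ N := by exact_mod_cast h3
    linarith
  calc ∑ e ∈ st H x, ((N : ℝ) - ∑ z ∈ e, (bd H z : ℝ))⁻¹
      ≤ ∑ e ∈ st H x, ((st H x).card : ℝ)⁻¹ := sum_le_sum h1
    _ = 1 := by
        rw [sum_const, nsmul_eq_mul]
        exact mul_inv_cancel₀ hx1.ne'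

/-- The extension theorem. -/
theorem furedi_cond [Fintype V] (H : Finset (Finset V)) (w : Finset V → ℝ) (D N : ℕ)
    (hlin : ∀ E ∈ H, ∀ F ∈ H, E ≠ F → (E ∩ F).card ≤ 1)
    (hw : ∀ E ∈ H, 0 ≤ w E)
    (hD : ∀ v : V, {u : V | u ≠ v ∧ ∃ E ∈ H, u ∈ E ∧ v ∈ E}.ncard ≤ D)
    (hN : D + 1 ≤ N)
    (hc : ∀ x y, x ≠ y → {x, y} ∈ H →
      (H.filter fun E => x ∈ E ∧ 2 ≤ E.card).card +
        (H.filter fun E => y ∈ E ∧ 3 ≤ E.card).card ≤ N) :
    ∃ M : Finset (Finset V), M ⊆ H ∧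
      (∀ E ∈ M, ∀ F ∈ M, E ≠ F → Disjoint E F) ∧
      (∑ E ∈ H, w E) / (N : ℝ) ≤ ∑ E ∈ M, w E := by
  classical
  have hdeg : ∀ v : V, ∑ E ∈ H.filter (fun E => v ∈ E), (E.card - 1) ≤ D :=
    fun v => Furedi.deg_le hlin (hD v)
  exact add_small w _ (by exact_mod_cast hN) hw hdeg fun w' => ext_cond hlin hdeg N hN hc w'

/-- The extension theorem, general form. -/
theorem furedi_general [Fintype V] (H : Finset (Finset V)) (w : Finset V → ℝ) (D : ℕ) (N : ℝ)
    (hlin : ∀ E ∈ H, ∀ F ∈ H, E ≠ F → (E ∩ F).card ≤ 1)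
    (hw : ∀ E ∈ H, 0 ≤ w E)
    (hD : ∀ v : V, {u : V | u ≠ v ∧ ∃ E ∈ H, u ∈ E ∧ v ∈ E}.ncard ≤ D)
    (hN : (D : ℝ) + 1 ≤ N)
    (hc : ∀ x : V, ∑ e ∈ H.filter (fun e => e.card = 2 ∧ x ∈ e),
      (N - ∑ z ∈ e, ((H.filter fun E => z ∈ E ∧ 3 ≤ E.card).card : ℝ))⁻¹ ≤ 1) :
    ∃ M : Finset (Finset V), M ⊆ H ∧
      (∀ E ∈ M, ∀ F ∈ M, E ≠ F → Disjoint E F) ∧
      (∑ E ∈ H, w E) / N ≤ ∑ E ∈ M, w E := by
  classical
  have hdeg : ∀ v : V, ∑ E ∈ H.filter (fun E => v ∈ E), (E.card - 1) ≤ D :=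
    fun v => Furedi.deg_le hlin (hD v)
  refine add_small w _ hN hw hdeg fun w' => ext_general hlin hdeg N hN (fun x => ?_) w'
  have h1 := hc x
  rw [← filter_filter] at h1
  exact h1

/-- The number of edges of size at least two at a vertex. -/
lemma card_edges_le {H : Finset (Finset V)} {D : ℕ}
    (hD : ∀ x, ∑ E ∈ H.filter (fun E => x ∈ E), (E.card - 1) ≤ D) (x : V) :
    (H.filter fun E => x ∈ E ∧ 2 ≤ E.card).card + bd H x ≤ D := by
  classical
  have h1 := deg_split hD x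
  have h2 : (H.filter fun E => x ∈ E ∧ 2 ≤ E.card).card ≤ (st H x).card + bd H x := by
    have hsub : (H.filter fun E => x ∈ E ∧ 2 ≤ E.card) ⊆
        st H x ∪ H.filter fun E => x ∈ E ∧ 3 ≤ E.card := by
      intro E hE
      obtain ⟨h3, h4, h5⟩ := mem_filter.1 hE
      rw [mem_union]
      by_cases h6 : E.card = 2
      · left; exact mem_filter.2 ⟨mem_filter.2 ⟨h3, h6⟩, h4⟩
      · right; exact mem_filter.2 ⟨h3, h4, by omega⟩
    exact (card_le_card hsub).trans (card_union_le _ _)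
  omega

/-- The bound for all linear hypergraphs. -/
theorem furedi_all [Fintype V] (H : Finset (Finset V)) (w : Finset V → ℝ) (D : ℕ)
    (hlin : ∀ E ∈ H, ∀ F ∈ H, E ≠ F → (E ∩ F).card ≤ 1)
    (hw : ∀ E ∈ H, 0 ≤ w E)
    (hD : ∀ v : V, {u : V | u ≠ v ∧ ∃ E ∈ H, u ∈ E ∧ v ∈ E}.ncard ≤ D) :
    ∃ M : Finset (Finset V), M ⊆ H ∧
      (∀ E ∈ M, ∀ F ∈ M, E ≠ F → Disjoint E F) ∧
      (∑ E ∈ H, w E) / ((D + max 1 ((D - 1) / 2) : ℕ) : ℝ) ≤ ∑ E ∈ M, w E := by
  classical
  have hdeg : ∀ v : V, ∑ E ∈ H.filter (fun E => v ∈ E), (E.card - 1) ≤ D :=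
    fun v => Furedi.deg_le hlin (hD v)
  refine furedi_cond H w D _ hlin hw hD (by omega) ?_
  intro x y hxy he
  have h1 := card_edges_le hdeg x
  have h2 := deg_split hdeg y
  have h3 : 1 ≤ (st H y).card := card_pos.2 ⟨{x, y}, mem_filter.2
    ⟨mem_filter.2 ⟨he, card_pair hxy⟩, by simp⟩⟩
  unfold bd at h1 h2
  omega

end Pool.Agent.Furedi2
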